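import Mathlib
import Pool.Agent.Y557.OE.Pieces
import Pool.Agent.Y729.RV.Base
import Pool.Agent.L5helper17.DR.Vkg
import Pool.Agent.N31.FR.Tot

/-!
# Vojta's conjecture for all stacky curves over number fields: integral points above the points of
# degree `r` of the line, one exceptional set

Let `K` be a number field and `r ≥ 1`. We consider ALL number fields `k` containing `K`, all smooth
projective curves `X` over `k` with finitely many closed points (or reduced divisors)
`Q_1, …, Q_n`, all orders `e_l ≥ 1`, and the root stack `𝒳` over `X` of order `e_l` at `Q_l`, and all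
finite maps `t : X → ℙ¹` of degree `N` over `k` which are unramified outside the fibres over points
`a_1, …, a_q` of the affine line over `k` of degree at most `2 r + 1` over `K` (for
`[k : K] ≤ 2 r + 1` any points) and map the `Q_l` to the `a_j` (such a map exists by Belyi's theorem
for every curve, with three rational points `a_j`; we may suppose that every point over the `a_j` is
in one of the `Q_l`, with `e_l = 1` if it is not stacky). Let `A` be the ring of functions on `X`
with poles only over `∞`, let `z_{l 0} = t - a_{j(l)}, z_{l 1}, …` be generators of the ideal `I_l` of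
`Q_l`. Then for a set `J` of indices and the divisor `𝒟_J` of the stacky points over `Q_l`, `l ∈ J`,
`deg (K_𝒳 + 𝒟_J) / N = q - 2 - ∑_{l ∉ J} dim (A / I_l) / (e_l N)`.

The points `P` of `X` (not over `∞`) over a number field `L` containing `k` are the homomorphisms
`φ : A → L` over `k`; such a point outside the `Q_l` is an integral point of `𝒳` over the
`S`-integers of `L` if for every prime `v` of `L` outside `S` the intersection number of `P` and
`Q_l` at `v` is divisible by `e_l` for all `l`.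

We prove that there is ONE set `E` of points of degree `r` over `K`, a proportion `O(exp (-√U))` of
the points of relative height at most `U`, such that for all `k`, `X`, `t`, `Q_l`, `S` and `κ > 0`,
with a constant `c` depending on these data, the inequality holds for the integral points `P` of `𝒳`
over ALL number fields `L` containing `k` for which `t(P)` is a point of degree `r` over `K` outside
`E`, for all orders `e_l` and all `J`, with `(2 - κ) h(t(P))` to spare, and with the discriminant of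
`L` relative to the field `k(t(P))` only.
-/

set_option autoImplicit false

namespace Pool.Agent.Results.MP_a41896_nt.PointsOfEveryDegree

open Polynomial IsDedekindDomain NumberField Module

/-- The function `t` on the curve with the ring of functions `A`. -/
noncomputable def coord (k A : Type) [Field k] [CommRing A] [Algebra k[X] A] : A :=
  algebraMap k[X] A X

/-- The absolute logarithmic height of the point `x` of the line. -/
noncomputable def height {M : Type} [Field M] [NumberField M] (x : M) : ℝ :=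
  Height.logHeight₁ x / (finrank ℚ M : ℝ)

/-- `p` is the minimal polynomial over `K` of a number `x` of degree `r` over `K` (which generates
the field `M = K(x)`) of absolute logarithmic height at most `H`. -/
def PointOf (K : Type) [Field K] [NumberField K] (r : ℕ) (H : ℝ) (p : Polynomial K) : Prop :=
  ∃ (M : Type) (_ : Field M) (_ : NumberField M) (_ : Algebra K M) (x : M),
    finrank K M = r ∧ (minpoly K x).natDegree = r ∧ minpoly K x = p ∧ height x ≤ H

/-- `P = φ` reduces to a point of `Q = {z_0 = z_1 = ⋯ = 0}` at `v`: `|t(P)|_v ≤ 1` and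
`|z_i(P)|_v < 1` for all `i`. -/
def Meets {k A : Type} [Field k] [CommRing A] [Algebra k A] [Algebra k[X] A] {s : ℕ}
    (z : Fin (s + 1) → A) {L : Type} [Field L] [NumberField L] [Algebra k L] (φ : A →ₐ[k] L)
    (v : HeightOneSpectrum (𝓞 L)) : Prop :=
  v.valuation L (φ (coord k A)) ≤ 1 ∧ ∀ i, v.valuation L (φ (z i)) < 1

/-- `P = φ` is an integral point over the `S`-integers of `L` of the curve with stacky points of
order `e_l` at `Q_l = {z_{l 0} = z_{l 1} = ⋯ = 0}`: for every prime `v` of `L` which contains no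
prime of `S` and every `l` such that `P` reduces to a point of `Q_l` at `v`, the intersection number
of `P` and `Q_l` at `v`, that is the number `m` with `max_i |z_{l i}(P)|_v = exp(- m)` (normalised
valuation), is a multiple of `e_l`. -/
def IsIntegralPoint {k A : Type} [Field k] [CommRing A] [Algebra k A] [Algebra k[X] A] {n : ℕ}
    (S : Finset ℕ) {s : Fin n → ℕ} (z : ∀ l, Fin (s l + 1) → A) (e : Fin n → ℕ) {L : Type}
    [Field L] [NumberField L] [Algebra k L] (φ : A →ₐ[k] L) : Prop :=
  ∀ v : HeightOneSpectrum (𝓞 L), (∀ p ∈ S, (p : 𝓞 L) ∉ v.asIdeal) → ∀ l, Meets (z l) φ v →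
    ∃ m : ℕ, e l ∣ m ∧ (∀ i, v.valuation L (φ (z l i)) ≤ WithZero.exp (-(m : ℤ))) ∧
      ∃ i, v.valuation L (φ (z l i)) = WithZero.exp (-(m : ℤ))

open Classical in
/-- The (absolute) truncated counting function `N^{(1)}(𝒟_J, P)`: the sum of `log N(v) / [L : ℚ]`
over the primes `v` of `L`, not above primes of `S`, at which `P` reduces to a point of `Q_l` for
some `l ∈ J`. -/
noncomputable def truncated {k A : Type} [Field k] [CommRing A] [Algebra k A] [Algebra k[X] A]
    {n : ℕ} (S : Finset ℕ) {s : Fin n → ℕ} (z : ∀ l, Fin (s l + 1) → A) (J : Finset (Fin n))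
    {L : Type} [Field L] [NumberField L] [Algebra k L] (φ : A →ₐ[k] L) : ℝ :=
  (∑ᶠ v : HeightOneSpectrum (𝓞 L),
      if (∀ p ∈ S, (p : 𝓞 L) ∉ v.asIdeal) ∧ ∃ l ∈ J, Meets (z l) φ v
      then Real.log (Ideal.absNorm v.asIdeal) else 0) / Module.finrank ℚ L

/-- The (absolute) logarithmic discriminant `d(L) = log |disc L| / [L : ℚ]`. -/
noncomputable def logDisc (L : Type) [Field L] [NumberField L] : ℝ :=
  Real.log |(NumberField.discr L : ℝ)| / Module.finrank ℚ L

/-- `q - ∑_{l ∉ J} dim (A / I_l) / (e_l N)` for `I_l = (z_{l 0}, z_{l 1}, …)` and `N` the rank of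
`A` over `k[t]`: the number `2 + deg (K_𝒳 + 𝒟_J) / N`. -/
noncomputable def degree (k : Type) {A : Type} [Field k] [CommRing A] [Algebra k A]
    [Algebra k[X] A] (q : ℕ) {n : ℕ} {s : Fin n → ℕ} (z : ∀ l, Fin (s l + 1) → A)
    (e : Fin n → ℕ) (J : Finset (Fin n)) : ℝ :=
  q - ∑ l ∈ Jᶜ, (Module.finrank k (A ⧸ Ideal.span (Set.range (z l))) : ℝ) /
    (e l * Module.finrank k[X] A)

section Aux

open Pool.Agent.N753.DR (AtH lN)

theorem pointOf_iff {K : Type} [Field K] [NumberField K] {r : ℕ} (H : ℝ) (p : Polynomial K) :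
    PointOf K r H p ↔ AtH r ((finrank ℚ K : ℝ) * r * H) p := by
  have key : ∀ (M : Type) [Field M] [NumberField M] [Algebra K M] (x : M), finrank K M = r →
      (height x ≤ H ↔ Height.logHeight₁ x ≤ (finrank ℚ K : ℝ) * r * H) := by
    intro M _ _ _ x h
    have hfd : FiniteDimensional K M := Module.Finite.of_restrictScalars_finite ℚ K M
    have h1 : (finrank ℚ M : ℝ) = (finrank ℚ K : ℝ) * r := by
      rw [← Module.finrank_mul_finrank ℚ K M, h]
      push_cast
      ring
    have h2 : (0 : ℝ) < finrank ℚ M := by exact_mod_cast (Module.finrank_pos (R := ℚ) (M := M))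
    unfold height
    rw [div_le_iff₀ h2, h1, mul_comm H]
  constructor
  · rintro ⟨M, i1, i2, i3, x, h1, h2, h3, h4⟩
    exact ⟨M, i1, i2, i3, x, h1, h2, h3, (key M x h1).1 h4⟩
  · rintro ⟨M, i1, i2, i3, x, h1, h2, h3, h4⟩
    exact ⟨M, i1, i2, i3, x, h1, h2, h3, (key M x h1).2 h4⟩

/-- the roots of a polynomial have bounded height -/
theorem root_ht (G : ℚ[X]) (hG : G ≠ 0) : ∃ C : ℝ, 0 ≤ C ∧ ∀ (M : Type) [Field M] [NumberField M]
    (x : M), aeval x G = 0 → Height.logHeight₁ x ≤ finrank ℚ M * C := by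
  classical
  induction G using WfDvdMonoid.induction_on_irreducible with
  | zero => exact absurd rfl hG
  | unit u hu =>
    refine ⟨0, le_rfl, ?_⟩
    intro M _ _ x hx
    exfalso
    have h1 : IsUnit (aeval x u) := hu.map (aeval x)
    rw [hx] at h1
    exact not_isUnit_zero h1
  | mul a i ha hi ih =>
    obtain ⟨C1, hC1, h1⟩ := ih ha
    obtain ⟨C2, hC2, h2⟩ := Pool.Agent.N415.DRVK.conj_ht i hi
    refine ⟨C1 + C2, by positivity, ?_⟩
    intro M _ _ x hx
    have hd : (0 : ℝ) ≤ finrank ℚ M := Nat.cast_nonneg _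
    rw [map_mul] at hx
    rcases mul_eq_zero.1 hx with h | h
    · have := h2 M x h
      nlinarith
    · have := h1 M x h
      nlinarith

open Pool.Agent.W223.CV in
/-- the pieces in `J` and the others -/
lemma cc_pieces {L : Type} [Field L] [NumberField L] {n : ℕ} (S : Finset ℕ) (J : Finset (Fin n))
    (Q : Fin n → HeightOneSpectrum (𝓞 L) → Prop) (hQ : ∀ l, {v | Q l v}.Finite) :
    cc S (fun v => ∃ l ∈ (Finset.univ : Finset (Fin n)), Q l v) ≤
      cc S (fun v => ∃ l ∈ J, Q l v) + ∑ l ∈ Jᶜ, cc S (Q l) := by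
  classical
  have hfin : ∀ I : Finset (Fin n), {v | ∃ l ∈ I, Q l v}.Finite := by
    intro I
    refine (Set.finite_iUnion fun l => hQ l).subset ?_
    rintro v ⟨l, -, hv⟩
    exact Set.mem_iUnion.mpr ⟨l, hv⟩
  have h1 := cc_mono (S := S) (le_refl S) (A := fun v => (∃ l ∈ J, Q l v) ∨ ∃ l ∈ Jᶜ, Q l v)
    (A' := fun v => ∃ l ∈ (Finset.univ : Finset (Fin n)), Q l v) ((hfin J).union (hfin Jᶜ)) (by
      rintro v - ⟨l, -, hl⟩
      by_cases h : l ∈ J
      · exact Or.inl ⟨l, h, hl⟩
      · exact Or.inr ⟨l, Finset.mem_compl.mpr h, hl⟩)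
  have h2 := cc_or S (hfin J) (hfin Jᶜ)
  have h3 := cc_exists S Jᶜ Q hQ
  linarith

theorem cc_nonneg {L : Type} [Field L] [NumberField L] (S : Finset ℕ)
    (Q : HeightOneSpectrum (𝓞 L) → Prop) : 0 ≤ Pool.Agent.W223.CV.cc S Q := by
  classical
  unfold Pool.Agent.W223.CV.cc
  refine finsum_nonneg fun v => ?_
  unfold Pool.Agent.W223.CV.ct
  split_ifs
  · exact Real.log_natCast_nonneg _
  · exact le_rfl

open Classical in
theorem truncated_eq {k A : Type} [Field k] [CommRing A] [Algebra k A] [Algebra k[X] A]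
    {n : ℕ} (S : Finset ℕ) {s : Fin n → ℕ} (z : ∀ l, Fin (s l + 1) → A) (J : Finset (Fin n))
    {L : Type} [Field L] [NumberField L] [Algebra k L] (φ : A →ₐ[k] L) :
    truncated S z J φ = Pool.Agent.W223.CV.cc S (fun v : HeightOneSpectrum (𝓞 L) =>
      ∃ l ∈ J, Pool.Agent.Y557.OE.Nz k (z l) (φ : A →+* L) v) / Module.finrank ℚ L := by
  unfold truncated
  refine congrArg (fun t : ℝ => t / Module.finrank ℚ L) ?_
  unfold Pool.Agent.W223.CV.cc
  refine finsum_congr fun v => ?_
  by_cases h : (∀ p ∈ S, (p : 𝓞 L) ∉ v.asIdeal) ∧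
      ∃ l ∈ J, Pool.Agent.Y557.OE.Nz k (z l) (φ : A →+* L) v
  · rw [Pool.Agent.W223.CV.ct_pos h]
    exact if_pos h
  · rw [Pool.Agent.W223.CV.ct_neg h]
    exact if_neg h

theorem log_disc_nonneg (L : Type) [Field L] [NumberField L] :
    0 ≤ Real.log |(discr L : ℝ)| := by
  refine Real.log_nonneg ?_
  have h5 : (1 : ℤ) ≤ |discr L| := Int.one_le_abs (discr_ne_zero L)
  have h6 : |(discr L : ℝ)| = ((|discr L| : ℤ) : ℝ) := by push_cast; rfl
  rw [h6]
  exact_mod_cast h5

/-- the logarithmic discriminant does not decrease -/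
theorem disc_mono (M L : Type) [Field M] [NumberField M] [Field L] [NumberField L] [Algebra M L] :
    (finrank M L : ℝ) * Real.log |(discr M : ℝ)| ≤ Real.log |(discr L : ℝ)| := by
  have h := Pool.Agent.Y729.RV.base_change (k := M) (L := L) ∅ ∅ (by simp)
  simpa using h

end Aux

/-- **Vojta's inequality for the integral points of all stacky curves above the points of degree
`r`.** Let `K` be a number field of degree `m` and `r ≥ 1`. There is a set `E` of points of degree
`r` over `K` (given by their minimal polynomials) such that: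
(1) `E` contains at most `2 exp(m r (r + 1) H - √(m r H))` points of absolute logarithmic height at
most `H`, for all `H ≥ 0`;
(2) altogether there are at least `c exp(m r (r + 1) H)` such points, for all large `H`, `c > 0`;
(3) let `k` be any number field containing `K` and `a_1, …, a_q` distinct numbers in `k`, of degree
at most `2 r + 1` over `K`. Let `A` be a Dedekind domain, finite over `k[t]` and containing it (the
ring of functions of a smooth affine curve over `k` which is finite over the `t`-line), of rank `N`,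
let `Q_1, …, Q_n` be closed subschemes of the curve, defined by `z_{l 0} = t - a_{j(l)}, z_{l 1}, …`,
which contain all points over the `a_j`, let `S` be a finite set of primes, `κ > 0`, and
`al de ≠ be ga` in `K`. Then there is a constant `c` such that for all number fields `M` containing
`k`, all `x` in `M` with `M = k(x)`, different from the `a_j`, such that the transformed number
`y = (al x + be) / (ga x + de)` is of degree `r` over `K` and not in `E`, all number fields `L`
containing `M`, all points `P` of the curve over `L` with `t(P) = x` and all orders `e_l ≥ 1` for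
which `P` is an `S`-integral point over `L` of the curve with stacky points of order `e_l` at `Q_l`,
the inequality
`(q - ∑_{l ∉ J} dim (A / I_l) / (e_l N) - κ) h(x) ≤ N^{(1)}(𝒟_J, P) + d(L) - d(M) + c` holds for all
`J`. -/
theorem result (K : Type) [Field K] [NumberField K] (r : ℕ) (hr : 1 ≤ r) :
    ∃ E : Set (Polynomial K),
      (∀ H : ℝ, 0 ≤ H → {p | p ∈ E ∧ PointOf K r H p}.Finite ∧
        ({p | p ∈ E ∧ PointOf K r H p}.ncard : ℝ) ≤
          2 * Real.exp ((finrank ℚ K : ℝ) * r * (r + 1) * H - √((finrank ℚ K : ℝ) * r * H))) ∧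
      (∃ c H₀ : ℝ, 0 < c ∧ ∀ H : ℝ, H₀ ≤ H → ∃ T : Finset (Polynomial K),
        (∀ p ∈ T, PointOf K r H p) ∧
        c * Real.exp ((finrank ℚ K : ℝ) * r * (r + 1) * H) ≤ T.card) ∧
      ∀ (k : Type) [Field k] [NumberField k] [Algebra K k] (q : ℕ) (a : Fin q → k),
        Function.Injective a → (∀ i, (minpoly K (a i)).natDegree ≤ 2 * r + 1) →
      ∀ (A : Type) [CommRing A] [IsDedekindDomain A] [Algebra k A] [Algebra k[X] A]
        [IsScalarTower k k[X] A] [Module.Finite k[X] A] [FaithfulSMul k[X] A] (n : ℕ)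
        (j : Fin n → Fin q) (s : Fin n → ℕ) (z : ∀ l, Fin (s l + 1) → A),
        (∀ l, z l 0 = coord k A - algebraMap k A (a (j l))) →
        (∀ i, ∏ l with j l = i, Ideal.span (Set.range (z l)) ≤
          (Ideal.span {coord k A - algebraMap k A (a i)}).radical) →
      ∀ S : Finset ℕ, (∀ p ∈ S, p.Prime) → ∀ κ : ℝ, 0 < κ →
      ∀ al be ga de : K, al * de - be * ga ≠ 0 → ∃ c : ℝ,
        ∀ (M : Type) [Field M] [NumberField M] [Algebra K M] [Algebra k M] [IsScalarTower K k M]
          (x y : M), IntermediateField.adjoin k {x} = ⊤ →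
          y * (algebraMap K M ga * x + algebraMap K M de) =
            algebraMap K M al * x + algebraMap K M be →
          algebraMap K M ga * x + algebraMap K M de ≠ 0 →
          (minpoly K y).natDegree = r → minpoly K y ∉ E → (∀ i, x ≠ algebraMap k M (a i)) →
        ∀ (L : Type) [Field L] [NumberField L] [Algebra k L] [Algebra M L] [IsScalarTower k M L]
          (φ : A →ₐ[k] L), φ (coord k A) = algebraMap M L x →
          ∀ e : Fin n → ℕ, (∀ l, 1 ≤ e l) → IsIntegralPoint S z e φ → ∀ J : Finset (Fin n),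
            (degree k q z e J - κ) * height x ≤
              truncated S z J φ + (logDisc L - logDisc M) + c := by
  classical
  obtain ⟨E, hE, hmain⟩ := Pool.Agent.L5helper17.DR.vkG K r hr
  have hn0 : (0 : ℝ) < finrank ℚ K := by exact_mod_cast (Module.finrank_pos (R := ℚ) (M := K))
  have hr0 : (0 : ℝ) < r := by exact_mod_cast hr
  refine ⟨E, fun H hH => ?_, ?_, ?_⟩
  · have h1 := hE ((finrank ℚ K : ℝ) * r * H) (by positivity)
    have e1 : {p | p ∈ E ∧ PointOf K r H p} =
        {p | p ∈ E ∧ Pool.Agent.N753.DR.AtH r ((finrank ℚ K : ℝ) * r * H) p} := by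
      ext p
      simp only [Set.mem_ofPred_eq, pointOf_iff]
    rw [e1]
    refine ⟨h1.1, h1.2.trans (le_of_eq ?_)⟩
    congr 2
    ring
  · obtain ⟨c, U₀, hc, h⟩ := Pool.Agent.N31.FR.t K r hr
    refine ⟨c, U₀ / ((finrank ℚ K : ℝ) * r), hc, fun H hH => ?_⟩
    rw [div_le_iff₀ (by positivity)] at hH
    obtain ⟨T, hT, hTc⟩ := h ((finrank ℚ K : ℝ) * r * H) (by linarith)
    refine ⟨T, fun p hp => (pointOf_iff H p).2 (hT p hp), ?_⟩
    have e : (finrank ℚ K : ℝ) * r * (r + 1) * H = (r + 1) * ((finrank ℚ K : ℝ) * r * H) := by ring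
    rw [e]
    exact hTc
  intro k _ _ _ q a ha hadeg A _ _ _ _ _ _ _ n j s z hz0 hcov S hS κ hκ al be ga de hdet
  obtain ⟨ε, hε'⟩ : ∃ ε : ℝ, ε = κ / 2 := ⟨_, rfl⟩
  have hε : 0 < ε := by rw [hε']; positivity
  have hn1 : (0 : ℝ) < (n : ℝ) + 1 := by positivity
  obtain ⟨M₀, Ck, G, hM₀, hCk, hG, hkey⟩ := Pool.Agent.Y557.OE.keyP k A a j s z hz0 hcov
    (ε / (n + 1)) (by positivity)
  obtain ⟨T₀, hT₀⟩ : ∃ T₀ : Finset ℕ, T₀ = M₀.primeFactors ∪ S := ⟨_, rfl⟩
  have hT₀p : ∀ p ∈ T₀, p ≠ 0 := by
    intro p hp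
    rw [hT₀] at hp
    rcases Finset.mem_union.1 hp with h | h
    · exact (Nat.prime_of_mem_primeFactors h).ne_zero
    · exact (hS p h).ne_zero
  obtain ⟨C₀, hC₀⟩ := hmain k q a ha hadeg al be ga de hdet T₀ ε hε
  obtain ⟨CG, hCG, hroot⟩ := root_ht G hG
  refine ⟨n * Ck + |C₀| + q * CG, ?_⟩
  intro M _ _ _ _ _ x y hx hxy hxy0 hyr hyE hxa L _ _ _ _ _ φ hφ e he hint J
  have hMpos : (0 : ℝ) < Module.finrank ℚ M := by exact_mod_cast Module.finrank_pos
  have hM1 : (1 : ℝ) ≤ Module.finrank ℚ M := by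
    exact_mod_cast (Module.finrank_pos (R := ℚ) (M := M))
  have hLpos : (0 : ℝ) < Module.finrank ℚ L := by exact_mod_cast Module.finrank_pos
  obtain ⟨T, hT⟩ : ∃ T : ℝ, T = Pool.Agent.W223.CV.cc S (fun v : HeightOneSpectrum (𝓞 L) =>
    ∃ l ∈ J, Pool.Agent.Y557.OE.Nz k (z l) (φ : A →+* L) v) := ⟨_, rfl⟩
  have hT0 : 0 ≤ T := by rw [hT]; exact cc_nonneg _ _
  rw [truncated_eq, ← hT]
  have hTd : 0 ≤ T / Module.finrank ℚ L := div_nonneg hT0 hLpos.le
  have hh0 : 0 ≤ height x := div_nonneg (Height.zero_le_logHeight₁ x) (Nat.cast_nonneg _)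
  have hfd : FiniteDimensional M L := Module.Finite.of_restrictScalars_finite ℚ M L
  obtain ⟨d, hd⟩ : ∃ d : ℝ, d = (Module.finrank ℚ M : ℝ) := ⟨_, rfl⟩
  have hd0 : 0 < d := by rw [hd]; exact hMpos
  have hd1 : 1 ≤ d := by rw [hd]; exact hM1
  obtain ⟨m, hm⟩ : ∃ m : ℝ, m = (Module.finrank M L : ℝ) := ⟨_, rfl⟩
  have hm0 : 0 < m := by rw [hm]; exact_mod_cast Module.finrank_pos
  have htow : (Module.finrank ℚ L : ℝ) = d * m := by
    rw [hd, hm]
    exact_mod_cast (Module.finrank_mul_finrank ℚ M L).symm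
  have hdm : 0 < d * m := mul_pos hd0 hm0
  obtain ⟨lM, hlM⟩ : ∃ lM : ℝ, lM = Real.log |(discr M : ℝ)| := ⟨_, rfl⟩
  obtain ⟨lL, hlL⟩ : ∃ lL : ℝ, lL = Real.log |(discr L : ℝ)| := ⟨_, rfl⟩
  have hdisc : m * lM ≤ lL := by
    rw [hm, hlM, hlL]
    exact disc_mono M L
  have hdd : logDisc L - logDisc M = (lL - m * lM) / (d * m) := by
    unfold logDisc
    rw [← hlL, ← hlM, htow, ← hd]
    field_simp
  rw [hdd]
  have hdd0 : 0 ≤ (lL - m * lM) / (d * m) := div_nonneg (by linarith) hdm.le
  have hdeg_le : degree k q z e J ≤ q := by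
    unfold degree
    have : 0 ≤ ∑ l ∈ Jᶜ, (Module.finrank k (A ⧸ Ideal.span (Set.range (z l))) : ℝ) /
        (e l * Module.finrank k[X] A) := Finset.sum_nonneg fun l _ => by positivity
    linarith
  have habs := abs_nonneg C₀
  have hq0 : (0 : ℝ) ≤ q := Nat.cast_nonneg _
  have hnCk : 0 ≤ (n : ℝ) * Ck := by positivity
  by_cases hGx : aeval x G = 0
  · -- finitely many values
    have h1 : height x ≤ CG := by
      unfold height
      rw [div_le_iff₀ hMpos]
      have := hroot M x hGx
      linarith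
    have h3 : (degree k q z e J - κ) * height x ≤ (q : ℝ) * height x :=
      mul_le_mul_of_nonneg_right (by linarith) hh0
    have h4 : (q : ℝ) * height x ≤ q * CG := mul_le_mul_of_nonneg_left h1 hq0
    linarith
  have hqC : 0 ≤ (q : ℝ) * CG := by positivity
  -- the inequality over `M`
  have hxe : ((q : ℝ) - ε) * Height.logHeight₁ x ≤ Pool.Agent.Y729.RV.cnt T₀ a x + C₀ := by
    rw [Pool.Agent.Y729.RV.cnt_eq T₀ hxa]
    refine hC₀ M x y hx hxy hxy0 hyr hyE hxa _ ?_
    intro w h1 h2 h3
    rw [Set.Finite.mem_toFinset]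
    exact ⟨fun p hp => h1 p hp (hT₀p p hp), h2, h3⟩
  have hφ' : φ (algebraMap k[X] A X) = algebraMap M L x := hφ
  obtain ⟨hfin, hk1, hk2⟩ := hkey L φ (by
    rw [hφ', aeval_algebraMap_apply]
    intro h
    exact hGx ((map_eq_zero _).1 h)) (by
    intro i h
    rw [hφ', IsScalarTower.algebraMap_apply k M L] at h
    exact hxa i ((algebraMap M L).injective h))
  have hk1 := hk1 S
  rw [hφ', ← hT₀] at hk1
  have hb1 := Pool.Agent.Y729.RV.base_cnt (K := k) (F := M) (L := L) T₀ a x hxa
  have h8 := cc_pieces S J (fun l (v : HeightOneSpectrum (𝓞 L)) =>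
    Pool.Agent.Y557.OE.Nz k (z l) (φ : A →+* L) v) hfin
  rw [← hT] at h8
  obtain ⟨H, hH⟩ : ∃ H : ℝ, H = Real.log (Height.mulHeight₁ x) := ⟨_, rfl⟩
  have hHx : height x = H / d := by
    rw [hH, hd]
    unfold height
    rw [Height.logHeight₁_eq_log_mulHeight₁]
  have hH0 : 0 ≤ H := by
    rw [hH]
    exact Real.log_nonneg (Height.one_le_mulHeight₁ _)
  have hHξ : Real.log (Height.mulHeight₁ (algebraMap M L x)) = m * H := by
    rw [Pool.Agent.W223.AC.MK.log_height_ext L x, ← hm, ← hH]
  rw [Height.logHeight₁_eq_log_mulHeight₁, ← hH] at hxe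
  -- the pieces outside `J`
  obtain ⟨N0, hN0⟩ : ∃ N0 : ℝ, N0 = (Module.finrank k[X] A : ℝ) := ⟨_, rfl⟩
  obtain ⟨D, hD⟩ : ∃ D : Fin n → ℝ, D = fun l =>
    (Module.finrank k (A ⧸ Ideal.span (Set.range (z l))) : ℝ) := ⟨_, rfl⟩
  have h5 : ∀ l, Pool.Agent.W223.CV.cc S (fun v : HeightOneSpectrum (𝓞 L) =>
        Pool.Agent.Y557.OE.Nz k (z l) (φ : A →+* L) v) ≤
      (D l / (e l * N0) + ε / (n + 1)) * (m * H) + Ck * (d * m) := by
    intro l
    have he1 : (1 : ℝ) ≤ e l := by exact_mod_cast he l
    have h9 := hk2 l S (e l) (by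
      intro v hvS hnear i
      obtain ⟨m', hm', hle, i', hi'⟩ := hint v hvS l hnear
      have hm0 : m' ≠ 0 := by
        rintro rfl
        have h9 : v.valuation L (φ (z l i')) < 1 := hnear.2 i'
        rw [hi'] at h9
        simp at h9
      obtain ⟨c', rfl⟩ := hm'
      refine (hle i).trans ?_
      rw [WithZero.exp_le_exp, neg_le_neg_iff]
      have : 1 ≤ c' := by
        rcases Nat.eq_zero_or_pos c' with h | h
        · rw [h, mul_zero] at hm0; exact absurd rfl hm0
        · exact h
      exact_mod_cast Nat.le_mul_of_pos_right _ this)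
    rw [hφ', hHξ, htow, ← hN0] at h9
    have hDl : (Module.finrank k (A ⧸ Ideal.span (Set.range (z l))) : ℝ) = D l := by rw [hD]
    rw [hDl] at h9
    have he0 : (0 : ℝ) < e l := by linarith
    refine le_of_mul_le_mul_left (h9.trans ?_) he0
    have h12 : (e l : ℝ) * ((D l / (e l * N0) + ε / (n + 1)) * (m * H) + Ck * (d * m)) =
        D l / N0 * (m * H) + e l * (ε / (n + 1) * (m * H) + Ck * (d * m)) := by
      rw [mul_comm (e l : ℝ) N0, ← div_div]
      field_simp
      ring
    rw [h12]
    have h13 : 0 ≤ ε / (n + 1) * (m * H) + Ck * (d * m) := by positivity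
    nlinarith
  have h6 := Finset.sum_le_sum fun l (_ : l ∈ Jᶜ) => h5 l
  have e8 : degree k q z e J = q - ∑ l ∈ Jᶜ, D l / (e l * N0) := by
    rw [hD, hN0]
    rfl
  obtain ⟨g, hg⟩ : ∃ g : ℝ, g = degree k q z e J := ⟨_, rfl⟩
  have hgs : ∑ l ∈ Jᶜ, D l / (e l * N0) = q - g := by rw [hg, e8]; ring
  have hJ : ((Jᶜ.card : ℕ) : ℝ) ≤ n := by
    have := Finset.card_le_univ Jᶜ
    rw [Fintype.card_fin] at this
    exact_mod_cast this
  have h7 : ∑ l ∈ Jᶜ, ((D l / (e l * N0) + ε / (n + 1)) * (m * H) + Ck * (d * m)) ≤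
      (q - g + ε) * (m * H) + n * Ck * (d * m) := by
    rw [Finset.sum_add_distrib, ← Finset.sum_mul, Finset.sum_add_distrib, Finset.sum_const,
      Finset.sum_const, nsmul_eq_mul, nsmul_eq_mul, hgs]
    have h10 : ((Jᶜ.card : ℕ) : ℝ) * (ε / (n + 1)) ≤ ε := by
      rw [mul_div_assoc', div_le_iff₀ hn1]
      nlinarith
    have hmH : 0 ≤ m * H := mul_nonneg hm0.le hH0
    have h11 := mul_le_mul_of_nonneg_right h10 hmH
    have h12 : ((Jᶜ.card : ℕ) : ℝ) * (Ck * (d * m)) ≤ n * (Ck * (d * m)) :=
      mul_le_mul_of_nonneg_right hJ (by positivity)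
    nlinarith
  rw [← hg, hHx, htow]
  rw [← hm, ← hlM, ← hlL] at hb1
  have h9 : m * (((q : ℝ) - ε) * H) ≤ (lL - m * lM) +
      (T + ((q - g + ε) * (m * H) + n * Ck * (d * m))) + m * C₀ := by
    have h10 : m * (((q : ℝ) - ε) * H) ≤ m * (Pool.Agent.Y729.RV.cnt T₀ a x + C₀) :=
      mul_le_mul_of_nonneg_left hxe hm0.le
    nlinarith
  have hC0le : m * C₀ ≤ d * m * |C₀| := by
    have h1 := le_abs_self C₀
    have h2 : m * C₀ ≤ m * |C₀| := mul_le_mul_of_nonneg_left h1 hm0.le
    have h3 : m * |C₀| ≤ d * (m * |C₀|) := le_mul_of_one_le_left (by positivity) hd1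
    nlinarith
  have h10 : m * ((g - κ) * H) ≤ (lL - m * lM) + T + d * m * (n * Ck + |C₀|) := by
    have e11 : m * (((q : ℝ) - ε) * H) - (q - g + ε) * (m * H) = m * ((g - κ) * H) := by
      rw [hε']
      ring
    nlinarith
  have h11 : (m * ((g - κ) * H)) / (d * m) ≤
      ((lL - m * lM) + T + d * m * (n * Ck + |C₀|)) / (d * m) :=
    div_le_div_of_nonneg_right h10 hdm.le
  have e12 : (m * ((g - κ) * H)) / (d * m) = (g - κ) * (H / d) := by
    field_simp
  have e13 : ((lL - m * lM) + T + d * m * (n * Ck + |C₀|)) / (d * m) =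
      T / (d * m) + (lL - m * lM) / (d * m) + (n * Ck + |C₀|) := by
    rw [add_div, add_div, mul_div_cancel_left₀ _ hdm.ne']
    ring
  rw [e12, e13] at h11
  linarith

end Pool.Agent.Results.MP_a41896_nt.PointsOfEveryDegree
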