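import Mathlib
import Pool.Agent.L5helper18.PC.All
import Pool.Agent.L5helper17.DR.Vkg

/-!
# Vojta's conjecture for products of stacky curves: integral points above the tuples of points of
# given degrees, one exceptional set

Let `K` be a number field and `r_1, …, r_m ≥ 1`. We consider ALL number fields `k` containing `K` and
all products `𝒳 = 𝒳_1 × ⋯ × 𝒳_m` of stacky curves over `k`: `𝒳_i` is the root stack of order `e_{i l}`
at the closed points (or reduced divisors) `Q_{i l}` of a smooth projective curve `X_i` over `k`, with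
a finite map `t_i : X_i → ℙ¹` of degree `N_i` over `k` which is unramified outside the fibres over
points `a_{i 1}, …, a_{i q_i}` of the affine line over `k` of degree at most `2 r_i + 1` over `K`, and
every point of these fibres is in one of the `Q_{i l}` (such a map exists by Belyi's theorem for every
curve, with three rational points `a_{i b}`; `e_{i l} = 1` for points which are not stacky). Let `A_i`
be the ring of functions on `X_i` with poles only over `∞`, let
`z_{i l 0} = t - a_{i j(l)}, z_{i l 1}, …` be generators of the ideal `I_{i l}` of `Q_{i l}`. For sets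
`J_i` of indices let `𝒟_i` be the divisor of the stacky points over the `Q_{i l}`, `l ∈ J_i`, and let
`𝒟 = ∑ pr_i^* 𝒟_i`, a divisor with normal crossings on `𝒳`. Then
`deg (K_{𝒳_i} + 𝒟_i) / N_i = q_i - 2 - ∑_{l ∉ J_i} dim (A_i / I_{i l}) / (e_{i l} N_i)`.

We prove that there is ONE set `E` of tuples of points of degrees `r_1, …, r_m` over `K`, which
contains a proportion `O(exp (-√T))` of the tuples of absolute logarithmic height at most `H`,
`T = [K : ℚ] H`, such that for all such products `𝒳` over all `k`, all finite sets `S` of primes and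
`κ > 0`, with a constant `c` depending on these data, the inequality of Vojta's conjecture
`∑_i (deg (K_{𝒳_i} + 𝒟_i) / N_i + 2 - κ) h(x_i) ≤ N^{(1)}(𝒟, P) + d(L) + c`
holds for the integral points `P = (P_1, …, P_m)` of `𝒳` over ALL number fields `L` containing `k` for
which the tuple of the `x_i = t_i(P_i)` is a tuple of points of degrees `r_i` over `K` outside `E`, for
all orders `e_{i l}` and all `J_i`. Every prime is counted only once in `N^{(1)}(𝒟, P)`.
-/

set_option autoImplicit false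

namespace Pool.Agent.Results.MP_a41896_nt.ProductsOfStackyCurves

open Polynomial IsDedekindDomain NumberField Module

/-- The function `t` on the curve with the ring of functions `A`. -/
noncomputable def coord (k A : Type) [Field k] [CommRing A] [Algebra k[X] A] : A :=
  algebraMap k[X] A X

/-- The absolute logarithmic height of the point `x` of the line. -/
noncomputable def height {M : Type} [Field M] [NumberField M] (x : M) : ℝ :=
  Height.logHeight₁ x / (finrank ℚ M : ℝ)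

/-- `P = (P_1, …, P_m)` is the tuple of the minimal polynomials over `K` of numbers `x_i` of degrees
`r_i` over `K` (which generate the fields `K(x_i)`) of absolute logarithmic heights at most `H`. -/
def TupleOf (K : Type) [Field K] [NumberField K] {m : ℕ} (r : Fin m → ℕ) (H : ℝ)
    (P : Fin m → Polynomial K) : Prop :=
  ∀ i, ∃ (M : Type) (_ : Field M) (_ : NumberField M) (_ : Algebra K M) (x : M),
    finrank K M = r i ∧ (minpoly K x).natDegree = r i ∧ minpoly K x = P i ∧ height x ≤ H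

/-- `P = φ` reduces to a point of `Q = {z_0 = z_1 = ⋯ = 0}` at `v`: `|t(P)|_v ≤ 1` and
`|z_i(P)|_v < 1` for all `i`. -/
def Meets {k A : Type} [Field k] [CommRing A] [Algebra k A] [Algebra k[X] A] {s : ℕ}
    (z : Fin (s + 1) → A) {L : Type} [Field L] [NumberField L] [Algebra k L] (φ : A →ₐ[k] L)
    (v : HeightOneSpectrum (𝓞 L)) : Prop :=
  v.valuation L (φ (coord k A)) ≤ 1 ∧ ∀ i, v.valuation L (φ (z i)) < 1

/-- `P = φ` is an integral point over the `S`-integers of `L` of the curve with stacky points of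
order `e_l` at `Q_l = {z_{l 0} = z_{l 1} = ⋯ = 0}`: for every prime `v` of `L` which contains no
prime of `S` and every `l` such that `P` reduces to a point of `Q_l` at `v`, the intersection number
of `P` and `Q_l` at `v`, that is the number `n` with `max_i |z_{l i}(P)|_v = exp(- n)` (normalised
valuation), is a multiple of `e_l`. -/
def IsIntegralPoint {k A : Type} [Field k] [CommRing A] [Algebra k A] [Algebra k[X] A] {n : ℕ}
    (S : Finset ℕ) {s : Fin n → ℕ} (z : ∀ l, Fin (s l + 1) → A) (e : Fin n → ℕ) {L : Type}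
    [Field L] [NumberField L] [Algebra k L] (φ : A →ₐ[k] L) : Prop :=
  ∀ v : HeightOneSpectrum (𝓞 L), (∀ p ∈ S, (p : 𝓞 L) ∉ v.asIdeal) → ∀ l, Meets (z l) φ v →
    ∃ n : ℕ, e l ∣ n ∧ (∀ i, v.valuation L (φ (z l i)) ≤ WithZero.exp (-(n : ℤ))) ∧
      ∃ i, v.valuation L (φ (z l i)) = WithZero.exp (-(n : ℤ))

open Classical in
/-- The (absolute) truncated counting function `N^{(1)}(𝒟, P)` of the divisor `𝒟 = ∑ pr_i^* 𝒟_i`:
the sum of `log N(v) / [L : ℚ]` over the primes `v` of `L`, not above primes of `S`, at which for some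
`i` the coordinate `P_i = φ_i` reduces to a point of `Q_{i l}` for some `l ∈ J_i`. Every prime is
counted once. -/
noncomputable def truncated {k : Type} [Field k] {m : ℕ} {A : Fin m → Type} [∀ i, CommRing (A i)]
    [∀ i, Algebra k (A i)] [∀ i, Algebra k[X] (A i)] {n : Fin m → ℕ} (S : Finset ℕ)
    {s : ∀ i, Fin (n i) → ℕ} (z : ∀ i l, Fin (s i l + 1) → A i) (J : ∀ i, Finset (Fin (n i)))
    {L : Type} [Field L] [NumberField L] [Algebra k L] (φ : ∀ i, A i →ₐ[k] L) : ℝ :=
  (∑ᶠ v : HeightOneSpectrum (𝓞 L),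
      if (∀ p ∈ S, (p : 𝓞 L) ∉ v.asIdeal) ∧ ∃ i, ∃ l ∈ J i, Meets (z i l) (φ i) v
      then Real.log (Ideal.absNorm v.asIdeal) else 0) / Module.finrank ℚ L

/-- The (absolute) logarithmic discriminant `d(L) = log |disc L| / [L : ℚ]`. -/
noncomputable def logDisc (L : Type) [Field L] [NumberField L] : ℝ :=
  Real.log |(NumberField.discr L : ℝ)| / Module.finrank ℚ L

/-- `q - ∑_{l ∉ J} dim (A / I_l) / (e_l N)` for `I_l = (z_{l 0}, z_{l 1}, …)` and `N` the rank of
`A` over `k[t]`: the number `2 + deg (K_𝒳 + 𝒟) / N`. -/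
noncomputable def degree (k : Type) {A : Type} [Field k] [CommRing A] [Algebra k A]
    [Algebra k[X] A] (q : ℕ) {n : ℕ} {s : Fin n → ℕ} (z : ∀ l, Fin (s l + 1) → A)
    (e : Fin n → ℕ) (J : Finset (Fin n)) : ℝ :=
  q - ∑ l ∈ Jᶜ, (Module.finrank k (A ⧸ Ideal.span (Set.range (z l))) : ℝ) /
    (e l * Module.finrank k[X] A)

section Aux

open Pool.Agent.N753.DR (AtH HT)

theorem tupleOf_iff {K : Type} [Field K] [NumberField K] {m : ℕ} (r : Fin m → ℕ) (H : ℝ)
    (P : Fin m → Polynomial K) : TupleOf K r H P ↔ HT r ((finrank ℚ K : ℝ) * H) P := by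
  have key : ∀ (i : Fin m) (M : Type) [Field M] [NumberField M] [Algebra K M] (x : M),
      finrank K M = r i →
      (height x ≤ H ↔ Height.logHeight₁ x ≤ r i * ((finrank ℚ K : ℝ) * H)) := by
    intro i M _ _ _ x h
    have hfd : FiniteDimensional K M := Module.Finite.of_restrictScalars_finite ℚ K M
    have h1 : (finrank ℚ M : ℝ) = (finrank ℚ K : ℝ) * r i := by
      rw [← Module.finrank_mul_finrank ℚ K M, h]
      push_cast
      ring
    have h2 : (0 : ℝ) < finrank ℚ M := by exact_mod_cast (Module.finrank_pos (R := ℚ) (M := M))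
    have h3 : (r i : ℝ) * ((finrank ℚ K : ℝ) * H) = H * ((finrank ℚ K : ℝ) * r i) := by ring
    unfold height
    rw [div_le_iff₀ h2, h1, h3]
  constructor
  · intro h i
    obtain ⟨M, i1, i2, i3, x, h1, h2, h3, h4⟩ := h i
    exact ⟨M, i1, i2, i3, x, h1, h2, h3, (key i M x h1).1 h4⟩
  · intro h i
    obtain ⟨M, i1, i2, i3, x, h1, h2, h3, h4⟩ := h i
    exact ⟨M, i1, i2, i3, x, h1, h2, h3, (key i M x h1).2 h4⟩

open Classical in
theorem truncated_eq {k : Type} [Field k] {m : ℕ} {A : Fin m → Type} [∀ i, CommRing (A i)]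
    [∀ i, Algebra k (A i)] [∀ i, Algebra k[X] (A i)] {n : Fin m → ℕ} (S : Finset ℕ)
    {s : ∀ i, Fin (n i) → ℕ} (z : ∀ i l, Fin (s i l + 1) → A i) (J : ∀ i, Finset (Fin (n i)))
    {L : Type} [Field L] [NumberField L] [Algebra k L] (φ : ∀ i, A i →ₐ[k] L) :
    truncated S z J φ = Pool.Agent.W223.CV.cc S (fun v : HeightOneSpectrum (𝓞 L) =>
      ∃ i, ∃ l ∈ J i, Pool.Agent.Y557.OE.Nz k (z i l) (φ i : A i →+* L) v) /
        Module.finrank ℚ L := by
  unfold truncated
  refine congrArg (fun t : ℝ => t / Module.finrank ℚ L) ?_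
  unfold Pool.Agent.W223.CV.cc
  refine finsum_congr fun v => ?_
  by_cases h : (∀ p ∈ S, (p : 𝓞 L) ∉ v.asIdeal) ∧
      ∃ i, ∃ l ∈ J i, Pool.Agent.Y557.OE.Nz k (z i l) (φ i : A i →+* L) v
  · rw [Pool.Agent.W223.CV.ct_pos (A := fun v : HeightOneSpectrum (𝓞 L) =>
      ∃ i, ∃ l ∈ J i, Pool.Agent.Y557.OE.Nz k (z i l) (φ i : A i →+* L) v) h]
    exact if_pos h
  · rw [Pool.Agent.W223.CV.ct_neg (A := fun v : HeightOneSpectrum (𝓞 L) =>
      ∃ i, ∃ l ∈ J i, Pool.Agent.Y557.OE.Nz k (z i l) (φ i : A i →+* L) v) h]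
    exact if_neg h

theorem log_disc_nonneg (L : Type) [Field L] [NumberField L] :
    0 ≤ Real.log |(discr L : ℝ)| := by
  refine Real.log_nonneg ?_
  have h5 : (1 : ℤ) ≤ |discr L| := Int.one_le_abs (discr_ne_zero L)
  have h6 : |(discr L : ℝ)| = ((|discr L| : ℤ) : ℝ) := by push_cast; rfl
  rw [h6]
  exact_mod_cast h5

end Aux

/-- **Vojta's inequality for the integral points of all products of stacky curves above the tuples
of points of degrees `r_1, …, r_m`.** Let `K` be a number field, `d = [K : ℚ]`, `m ≥ 1`, `r_i ≥ 1`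
and `R = ∑ r_i (r_i + 1)`. There is a set `E` of tuples of points of degrees `r_1, …, r_m` over `K`
(given by their minimal polynomials) such that:
(1) `E` contains at most `C exp(d R H - √(d H))` tuples of absolute logarithmic heights at most `H`,
for all `H ≥ 0`;
(2) altogether there are at least `c exp(d R H)` such tuples, for all large `H`, `c > 0`;
(3) let `k` be any number field containing `K` and, for `i = 1, …, m`, let `a_{i 1}, …, a_{i q_i}` be
distinct numbers in `k`, of degree at most `2 r_i + 1` over `K`. Let `A_i` be a Dedekind domain, finite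
over `k[t]` and containing it (the ring of functions of a smooth affine curve over `k` which is finite
over the `t`-line), of rank `N_i`, let `Q_{i 1}, …, Q_{i n_i}` be closed subschemes of the curve,
defined by `z_{i l 0} = t - a_{i j(l)}, z_{i l 1}, …`, which contain all points over the `a_{i b}`,
let `S` be a finite set of primes, `κ > 0`. Then there is a constant `c` such that for all number
fields `L` containing `k`, all points `P = (P_1, …, P_m)` of the product of the curves over `L` such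
that the `x_i = t(P_i)` are of degrees `r_i` over `K`, the tuple of the `x_i` is not in `E`, and
`x_i` is none of the `a_{i b}`, all orders `e_{i l} ≥ 1` for which `P` is an `S`-integral point over
`L` of the product of the curves with stacky points of order `e_{i l}` at `Q_{i l}`, and all `J_i`,
`∑_i (q_i - ∑_{l ∉ J_i} dim (A_i / I_{i l}) / (e_{i l} N_i) - κ) h(x_i) ≤ N^{(1)}(𝒟, P) + d(L) + c`,
where every prime is counted only once in `N^{(1)}(𝒟, P)`. -/
theorem result (K : Type) [Field K] [NumberField K] (m : ℕ) (hm : 1 ≤ m) (r : Fin m → ℕ)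
    (hr : ∀ i, 1 ≤ r i) :
    ∃ E : Set (Fin m → Polynomial K),
      (∃ C : ℝ, ∀ H : ℝ, 0 ≤ H → {P | P ∈ E ∧ TupleOf K r H P}.Finite ∧
        ({P | P ∈ E ∧ TupleOf K r H P}.ncard : ℝ) ≤
          C * Real.exp ((finrank ℚ K : ℝ) * (∑ i, (r i : ℝ) * (r i + 1)) * H -
            √((finrank ℚ K : ℝ) * H))) ∧
      (∃ c H₀ : ℝ, 0 < c ∧ ∀ H : ℝ, H₀ ≤ H → ∃ T : Finset (Fin m → Polynomial K),
        (∀ P ∈ T, TupleOf K r H P) ∧
        c * Real.exp ((finrank ℚ K : ℝ) * (∑ i, (r i : ℝ) * (r i + 1)) * H) ≤ T.card) ∧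
      ∀ (k : Type) [Field k] [NumberField k] [Algebra K k] (q : Fin m → ℕ)
        (a : ∀ i, Fin (q i) → k), (∀ i, Function.Injective (a i)) →
        (∀ i b, (minpoly K (a i b)).natDegree ≤ 2 * r i + 1) →
      ∀ (A : Fin m → Type) [∀ i, CommRing (A i)] [∀ i, IsDedekindDomain (A i)]
        [∀ i, Algebra k (A i)] [∀ i, Algebra k[X] (A i)] [∀ i, IsScalarTower k k[X] (A i)]
        [∀ i, Module.Finite k[X] (A i)] [∀ i, FaithfulSMul k[X] (A i)] (n : Fin m → ℕ)
        (j : ∀ i, Fin (n i) → Fin (q i)) (s : ∀ i, Fin (n i) → ℕ)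
        (z : ∀ i l, Fin (s i l + 1) → A i),
        (∀ i l, z i l 0 = coord k (A i) - algebraMap k (A i) (a i (j i l))) →
        (∀ i b, ∏ l with j i l = b, Ideal.span (Set.range (z i l)) ≤
          (Ideal.span {coord k (A i) - algebraMap k (A i) (a i b)}).radical) →
      ∀ S : Finset ℕ, (∀ p ∈ S, p.Prime) → ∀ κ : ℝ, 0 < κ → ∃ c : ℝ,
        ∀ (L : Type) [Field L] [NumberField L] [Algebra K L] [Algebra k L] [IsScalarTower K k L]
          (φ : ∀ i, A i →ₐ[k] L),
          (∀ i, (minpoly K (φ i (coord k (A i)))).natDegree = r i) →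
          (fun i => minpoly K (φ i (coord k (A i)))) ∉ E →
          (∀ i b, φ i (coord k (A i)) ≠ algebraMap k L (a i b)) →
          ∀ e : ∀ i, Fin (n i) → ℕ, (∀ i l, 1 ≤ e i l) →
          (∀ i, IsIntegralPoint S (z i) (e i) (φ i)) → ∀ J : ∀ i, Finset (Fin (n i)),
            ∑ i, (degree k (q i) (z i) (e i) (J i) - κ) * height (φ i (coord k (A i))) ≤
              truncated S z J φ + logDisc L + c := by
  classical
  have hd0 : (0 : ℝ) < finrank ℚ K := by exact_mod_cast (Module.finrank_pos (R := ℚ) (M := K))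
  have hd1 : (1 : ℝ) ≤ finrank ℚ K := by exact_mod_cast (Module.finrank_pos (R := ℚ) (M := K))
  choose E₁ hE₁ hmain using fun i => Pool.Agent.L5helper17.DR.vk K (r i) (hr i)
  obtain ⟨E₀, S₀, hE₀, hS₀, hcoin⟩ := Pool.Agent.L5helper18.PC.exc (K := K) hm r hr
  obtain ⟨CE, hCE, hcount⟩ := Pool.Agent.L5helper18.PC.all_count r hr E₁ hE₁ E₀ hE₀
  refine ⟨E₀ ∪ {P | ∃ i, P i ∈ E₁ i}, ⟨CE, fun H hH => ?_⟩, ?_, ?_⟩
  · have h1 := hcount ((finrank ℚ K : ℝ) * H) (by positivity)
    have e1 : {P | P ∈ (E₀ ∪ {P | ∃ i, P i ∈ E₁ i}) ∧ TupleOf K r H P} =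
        {P | P ∈ (E₀ ∪ {P | ∃ i, P i ∈ E₁ i}) ∧
          Pool.Agent.N753.DR.HT r ((finrank ℚ K : ℝ) * H) P} := by
      ext P
      simp only [Set.mem_ofPred_eq, tupleOf_iff]
    rw [e1]
    refine ⟨h1.1, h1.2.trans (le_of_eq ?_)⟩
    congr 3
    ring
  · obtain ⟨c, T₀, hc, h⟩ := Pool.Agent.L5helper18.PC.lower (K := K) r hr
    refine ⟨c, T₀ / (finrank ℚ K : ℝ), hc, fun H hH => ?_⟩
    rw [div_le_iff₀ hd0] at hH
    obtain ⟨Z, hZ, hZc⟩ := h ((finrank ℚ K : ℝ) * H) (by linarith)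
    refine ⟨Z, fun P hP => (tupleOf_iff r H P).2 (hZ P hP), ?_⟩
    refine le_trans (le_of_eq ?_) hZc
    congr 2
    ring
  intro k _ _ _ q a ha hadeg A _ _ _ _ _ _ _ n j s z hz0 hcov S hS κ hκ
  have hm1 : (1 : ℝ) ≤ m := by exact_mod_cast hm
  obtain ⟨ε, hε'⟩ : ∃ ε : ℝ, ε = κ / 2 := ⟨_, rfl⟩
  have hε : 0 < ε := by rw [hε']; positivity
  obtain ⟨κ', hκ'⟩ : ∃ κ' : ℝ, κ' = ε / ((m : ℝ) ^ 3 * finrank ℚ K) := ⟨_, rfl⟩
  have hκ'0 : 0 < κ' := by rw [hκ']; positivity
  -- the polynomials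
  obtain ⟨F, hF⟩ : ∃ F : Fin m → K[X], F = fun i => ∏ b, minpoly K (a i b) := ⟨_, rfl⟩
  have hF0 : ∀ i, F i ≠ 0 := by
    intro i
    rw [hF]
    exact Finset.prod_ne_zero_iff.2 fun b _ => minpoly.ne_zero (Algebra.IsIntegral.isIntegral _)
  have hFa : ∀ i b, aeval (a i b) (F i) = 0 := by
    intro i b
    rw [hF]
    beta_reduce
    rw [map_prod]
    exact Finset.prod_eq_zero (Finset.mem_univ b) (minpoly.aeval K (a i b))
  choose nn hnn hnear using fun i b => Pool.Agent.L5helper18.PC.near_pol (a i b) (F i) (hFa i b)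
  choose U hU0 hU using fun i i' => fun h : i ≠ i' => hcoin i i' h (F i) (F i') (hF0 i) (hF0 i')
    κ' hκ'0
  choose M₀ hM₀ hone using fun i => Pool.Agent.L5helper18.PC.oneCurve K (r i) (E₁ i) (hmain i) k
    (q i) (a i) (ha i) (hadeg i) (A i) (n i) (j i) (s i) (z i) (hz0 i) (hcov i) S ε hε
  obtain ⟨T₀, hT₀⟩ : ∃ T₀ : Finset ℕ, T₀ = (Finset.univ.biUnion fun i => (M₀ i).primeFactors) ∪ S ∪
    ((Finset.univ.biUnion fun i => Finset.univ.biUnion fun i' => S₀ i i' (F i) (F i')) ∪
      (Finset.univ.biUnion fun i => Finset.univ.image fun b => nn i b)) := ⟨_, rfl⟩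
  have hT1 : ∀ i, (M₀ i).primeFactors ∪ S ⊆ T₀ := by
    intro i
    rw [hT₀]
    refine (Finset.union_subset_union ?_ (Finset.Subset.refl S)).trans Finset.subset_union_left
    intro p hp
    exact Finset.mem_biUnion.2 ⟨i, Finset.mem_univ i, hp⟩
  have hT2 : ∀ i i', S₀ i i' (F i) (F i') ⊆ T₀ := by
    intro i i' p hp
    rw [hT₀]
    refine Finset.mem_union_right _ (Finset.mem_union_left _ ?_)
    exact Finset.mem_biUnion.2 ⟨i, Finset.mem_univ i, Finset.mem_biUnion.2
      ⟨i', Finset.mem_univ i', hp⟩⟩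
  have hT3 : ∀ i b, nn i b ∈ T₀ := by
    intro i b
    rw [hT₀]
    refine Finset.mem_union_right _ (Finset.mem_union_right _ ?_)
    exact Finset.mem_biUnion.2 ⟨i, Finset.mem_univ i, Finset.mem_image.2 ⟨b, Finset.mem_univ b, rfl⟩⟩
  have hT₀p : ∀ p ∈ T₀, p ≠ 0 := by
    intro p hp
    rw [hT₀] at hp
    rcases Finset.mem_union.1 hp with h | h
    · rcases Finset.mem_union.1 h with h | h
      · obtain ⟨i, -, h⟩ := Finset.mem_biUnion.1 h
        exact (Nat.prime_of_mem_primeFactors h).ne_zero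
      · exact (hS p h).ne_zero
    · rcases Finset.mem_union.1 h with h | h
      · obtain ⟨i, -, h⟩ := Finset.mem_biUnion.1 h
        obtain ⟨i', -, h⟩ := Finset.mem_biUnion.1 h
        exact hS₀ i i' (F i) (F i') p h
      · obtain ⟨i, -, h⟩ := Finset.mem_biUnion.1 h
        obtain ⟨b, -, rfl⟩ := Finset.mem_image.1 h
        exact hnn i b
  choose C hC0 hC using fun i => hone i T₀ (hT1 i) hT₀p
  obtain ⟨Us, hUs⟩ : ∃ Us : ℝ, Us = ∑ i, ∑ i', if h : i ≠ i' then U i i' h else 0 := ⟨_, rfl⟩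
  have hUn : ∀ i i', 0 ≤ if h : i ≠ i' then U i i' h else 0 := by
    intro i i'
    split_ifs with h
    · exact hU0 i i' h
    · exact le_rfl
  have hUs0 : 0 ≤ Us := by
    rw [hUs]
    exact Finset.sum_nonneg fun i _ => Finset.sum_nonneg fun i' _ => hUn i i'
  have hUle : ∀ i i' (h : i ≠ i'), U i i' h ≤ Us := by
    intro i i' h
    rw [hUs]
    have h1 : (if h : i ≠ i' then U i i' h else 0) ≤
        ∑ i', if h : i ≠ i' then U i i' h else 0 :=
      Finset.single_le_sum (f := fun i' => if h : i ≠ i' then U i i' h else 0)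
        (fun i' _ => hUn i i') (Finset.mem_univ i')
    have h2 : (∑ i', if h : i ≠ i' then U i i' h else 0) ≤
        ∑ i, ∑ i', if h : i ≠ i' then U i i' h else 0 :=
      Finset.single_le_sum (f := fun i => ∑ i', if h : i ≠ i' then U i i' h else 0)
        (fun i _ => Finset.sum_nonneg fun i' _ => hUn i i') (Finset.mem_univ i)
    rw [dif_pos h] at h1
    exact h1.trans h2
  have hCs : 0 ≤ ∑ i, C i := Finset.sum_nonneg fun i _ => hC0 i
  have hqs : 0 ≤ (∑ i, (q i : ℝ)) * Us :=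
    mul_nonneg (Finset.sum_nonneg fun i _ => Nat.cast_nonneg _) hUs0
  refine ⟨∑ i, C i + ε + (∑ i, (q i : ℝ)) * Us, ?_⟩
  intro L _ _ _ _ _ φ hxr hxE hxa e he hint J
  have hLpos : (0 : ℝ) < Module.finrank ℚ L := by exact_mod_cast Module.finrank_pos
  obtain ⟨x, hx⟩ : ∃ x : Fin m → L, x = fun i => φ i (coord k (A i)) := ⟨_, rfl⟩
  have hx' : ∀ i, φ i (coord k (A i)) = x i := fun i => by rw [hx]
  simp only [hx'] at hxr hxE hxa ⊢
  obtain ⟨h, hh⟩ : ∃ h : Fin m → ℝ, h = fun i => height (x i) := ⟨_, rfl⟩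
  have hh' : ∀ i, height (x i) = h i := fun i => by rw [hh]
  simp only [hh']
  have hH : ∀ i, Height.logHeight₁ (x i) = h i * finrank ℚ L := by
    intro i
    rw [← hh' i]
    unfold height
    field_simp
  have hh0 : ∀ i, 0 ≤ h i := by
    intro i
    rw [← hh' i]
    exact div_nonneg (Height.zero_le_logHeight₁ (x i)) (Nat.cast_nonneg _)
  have hhs : 0 ≤ ∑ i, h i := Finset.sum_nonneg fun i _ => hh0 i
  obtain ⟨g, hg⟩ : ∃ g : Fin m → ℝ, g = fun i => degree k (q i) (z i) (e i) (J i) := ⟨_, rfl⟩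
  have hg' : ∀ i, degree k (q i) (z i) (e i) (J i) = g i := fun i => by rw [hg]
  simp only [hg']
  have hgq : ∀ i, g i ≤ q i := by
    intro i
    rw [← hg' i]
    unfold degree
    have : 0 ≤ ∑ l ∈ (J i)ᶜ, (Module.finrank k (A i ⧸ Ideal.span (Set.range (z i l))) : ℝ) /
        (e i l * Module.finrank k[X] (A i)) := Finset.sum_nonneg fun l _ => by positivity
    linarith
  obtain ⟨T, hT⟩ : ∃ T : ℝ, T = Pool.Agent.W223.CV.cc S (fun v : HeightOneSpectrum (𝓞 L) =>
      ∃ i, ∃ l ∈ J i, Pool.Agent.Y557.OE.Nz k (z i l) (φ i : A i →+* L) v) := ⟨_, rfl⟩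
  have hT0 : 0 ≤ T := by rw [hT]; exact Pool.Agent.L5helper18.PC.cc_nonneg _ _
  rw [truncated_eq, ← hT]
  have hTd : 0 ≤ T / Module.finrank ℚ L := div_nonneg hT0 hLpos.le
  have hdL : 0 ≤ logDisc L := div_nonneg (log_disc_nonneg L) hLpos.le
  have hxE0 : (fun i => minpoly K (x i)) ∉ E₀ := fun h => hxE (Or.inl h)
  have hxE1 : ∀ i, minpoly K (x i) ∉ E₁ i := fun i h => hxE (Or.inr ⟨i, h⟩)
  have hHT : ∀ T : ℝ, Pool.Agent.N753.DR.HT r T (fun i => minpoly K (x i)) ↔
      ∀ i, h i * finrank ℚ K ≤ T := by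
    intro T
    have key : ∀ i, Pool.Agent.N753.DR.AtH (r i) (r i * T) (minpoly K (x i)) ↔
        h i * finrank ℚ K ≤ T := by
      intro i
      rw [Pool.Agent.L5helper18.PC.atH_ht (x i) (hr i) (hxr i), hH i]
      have hri : (0 : ℝ) < r i := by exact_mod_cast hr i
      have e1 : h i * finrank ℚ L * ((finrank ℚ K : ℝ) * r i) =
          (h i * finrank ℚ K) * (r i * finrank ℚ L) := by ring
      have e2 : (r i : ℝ) * T * finrank ℚ L = T * (r i * finrank ℚ L) := by ring
      rw [e1, e2]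
      exact mul_le_mul_iff_left₀ (by positivity)
    exact forall_congr' key
  by_cases hsmall : ∃ i i', ∃ hne : i ≠ i', Pool.Agent.N753.DR.HT r (U i i' hne)
      (fun i => minpoly K (x i))
  · obtain ⟨i₀, i₁, hne, h1⟩ := hsmall
    rw [hHT] at h1
    have h2 : ∀ i, h i ≤ Us := by
      intro i
      have h3 := (h1 i).trans (hUle i₀ i₁ hne)
      have h4 : h i ≤ h i * finrank ℚ K := le_mul_of_one_le_right (hh0 i) hd1
      linarith
    have h3 : ∑ i, (g i - κ) * h i ≤ ∑ i, (q i : ℝ) * Us := by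
      refine Finset.sum_le_sum fun i _ => ?_
      have h4 : (g i - κ) * h i ≤ q i * h i :=
        mul_le_mul_of_nonneg_right (by linarith [hgq i]) (hh0 i)
      exact h4.trans (mul_le_mul_of_nonneg_left (h2 i) (Nat.cast_nonneg _))
    rw [← Finset.sum_mul] at h3
    linarith
  push Not at hsmall
  -- the coincidences
  obtain ⟨Q, hQ1, hQ2⟩ := Pool.Agent.L5helper18.PC.exists_coinc q a x hxa T₀
  obtain ⟨Pc, hPc⟩ : ∃ Pc : Finset ℕ, Pc = Finset.univ.biUnion fun i =>
    Finset.univ.biUnion fun i' => if i ≠ i' then Q i i' else ∅ := ⟨_, rfl⟩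
  have hPcp : ∀ p ∈ Pc, p.Prime := by
    intro p hp
    rw [hPc] at hp
    obtain ⟨i, -, hp⟩ := Finset.mem_biUnion.1 hp
    obtain ⟨i', -, hp⟩ := Finset.mem_biUnion.1 hp
    split_ifs at hp with h
    · exact (hQ1 i i' p hp).1
    · exact absurd hp (Finset.notMem_empty p)
  have hQPc : ∀ i i', i ≠ i' → Q i i' ⊆ Pc := by
    intro i i' hne p hp
    rw [hPc]
    refine Finset.mem_biUnion.2 ⟨i, Finset.mem_univ i, Finset.mem_biUnion.2
      ⟨i', Finset.mem_univ i', ?_⟩⟩
    rw [if_pos hne]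
    exact hp
  have hNear : ∀ i i' i'' (p : ℕ) (v : HeightOneSpectrum (𝓞 L)), (p : 𝓞 L) ∈ v.asIdeal →
      Pool.Agent.Y729.RV.Nr T₀ (a i) (x i) v →
      Pool.Agent.N753.DR.NearP (S₀ i' i'' (F i') (F i'')) (F i) (minpoly K (x i)) p := by
    rintro i i' i'' p v hp ⟨h1, h2, b, h3⟩
    refine ⟨L, inferInstance, inferInstance, inferInstance, x i, v, rfl, ⟨?_, h2, ?_⟩, hp⟩
    · intro p' hp' _
      exact h1 p' (hT2 i' i'' hp')
    · exact hnear i b L (x i) v (h1 _ (hT3 i b)) h2 h3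
  have hQs : ∀ i i', i ≠ i' → ∑ p ∈ Q i i', Real.log (p : ℝ) ≤
      κ' * (finrank ℚ K * ∑ i, h i + 1) := by
    intro i i' hne
    refine hU i i' hne _ hxE0 (hsmall i i' hne) (finrank ℚ K * ∑ i, h i) (by positivity) ?_
      (Q i i') ?_
    · rw [hHT]
      intro l
      have h1 : h l ≤ ∑ i, h i := Finset.single_le_sum (fun i _ => hh0 i) (Finset.mem_univ l)
      rw [mul_comm]
      exact mul_le_mul_of_nonneg_left h1 hd0.le
    · intro p hp
      obtain ⟨h1, v, h2, h3, h4⟩ := hQ1 i i' p hp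
      exact ⟨h1, hNear i i i' p v h2 h3, hNear i' i i' p v h2 h4⟩
  have hlam0 : 0 ≤ κ' * (finrank ℚ K * ∑ i, h i + 1) := by positivity
  have hPcs : ∑ p ∈ Pc, Real.log (p : ℝ) ≤ (m : ℝ) * (m * (κ' * (finrank ℚ K * ∑ i, h i + 1))) := by
    rw [hPc]
    refine (Pool.Agent.L5helper18.PC.sum_bU_le _ _ _ fun p => Real.log_natCast_nonneg p).trans ?_
    have h1 : ∀ i ∈ (Finset.univ : Finset (Fin m)),
        ∑ p ∈ (Finset.univ.biUnion fun i' => if i ≠ i' then Q i i' else ∅), Real.log (p : ℝ) ≤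
          m * (κ' * (finrank ℚ K * ∑ i, h i + 1)) := by
      intro i _
      refine (Pool.Agent.L5helper18.PC.sum_bU_le _ _ _ fun p => Real.log_natCast_nonneg p).trans ?_
      have h2 : ∀ i' ∈ (Finset.univ : Finset (Fin m)),
          ∑ p ∈ (if i ≠ i' then Q i i' else ∅), Real.log (p : ℝ) ≤
            κ' * (finrank ℚ K * ∑ i, h i + 1) := by
        intro i' _
        split_ifs with hne
        · exact hQs i i' hne
        · rw [Finset.sum_empty]
          exact hlam0
      refine (Finset.sum_le_card_nsmul _ _ _ h2).trans (le_of_eq ?_)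
      rw [Finset.card_univ, Fintype.card_fin, nsmul_eq_mul]
    refine (Finset.sum_le_card_nsmul _ _ _ h1).trans (le_of_eq ?_)
    rw [Finset.card_univ, Fintype.card_fin, nsmul_eq_mul]
  have hdisj : ∀ i i', i ≠ i' → ∀ v : HeightOneSpectrum (𝓞 L),
      Pool.Agent.Y729.RV.Nr (T₀ ∪ Pc) (a i) (x i) v →
      Pool.Agent.Y729.RV.Nr (T₀ ∪ Pc) (a i') (x i') v → False := by
    intro i i' hne v h1 h2
    obtain ⟨p, hp, hpv⟩ := hQ2 i i' v ⟨fun p hp => h1.1 p (Finset.mem_union_left _ hp), h1.2⟩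
      ⟨fun p hp => h2.1 p (Finset.mem_union_left _ hp), h2.2⟩
    exact h1.1 p (Finset.mem_union_right _ (hQPc i i' hne hp)) hpv
  -- the inequalities for the coordinates
  have hi : ∀ i, (g i - ε) * Height.logHeight₁ (x i) ≤
      Pool.Agent.W223.CV.cc (T₀ ∪ Pc) (fun v : HeightOneSpectrum (𝓞 L) =>
        ∃ l ∈ J i, Pool.Agent.Y557.OE.Nz k (z i l) (φ i : A i →+* L) v) +
      ((finrank (IntermediateField.adjoin k {x i}) L : ℝ) *
        Pool.Agent.Y729.RV.cnt (T₀ ∪ Pc) (a i) (IntermediateField.AdjoinSimple.gen k (x i)) -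
          Pool.Agent.Y729.RV.cnt (T₀ ∪ Pc) (a i) (x i)) +
      finrank ℚ L * (C i + ∑ p ∈ Pc, Real.log (p : ℝ)) := by
    intro i
    obtain ⟨-, h1⟩ := hC i L (φ i) (x i) (hx' i) (hxr i) (hxE1 i) (hxa i)
    have h2 := h1 (e i) (he i) (by
      intro v hvS l hnear' i'
      obtain ⟨n', hn', hle, i₁, hi₁⟩ := hint i v hvS l hnear'
      have hn0 : n' ≠ 0 := by
        rintro rfl
        have h9 : v.valuation L (φ i (z i l i₁)) < 1 := hnear'.2 i₁
        rw [hi₁] at h9
        simp at h9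
      obtain ⟨c', rfl⟩ := hn'
      refine (hle i').trans ?_
      rw [WithZero.exp_le_exp, neg_le_neg_iff]
      have : 1 ≤ c' := by
        rcases Nat.eq_zero_or_pos c' with h | h
        · rw [h, mul_zero] at hn0; exact absurd rfl hn0
        · exact h
      exact_mod_cast Nat.le_mul_of_pos_right _ this) (J i) Pc hPcp
    have h3 : g i = q i - ∑ l ∈ (J i)ᶜ,
        (Module.finrank k (A i ⧸ Ideal.span (Set.range (z i l))) : ℝ) /
          (e i l * Module.finrank k[X] (A i)) := by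
      rw [← hg' i]
      rfl
    rw [h3]
    exact h2
  have hsum := Finset.sum_le_sum fun i (_ : i ∈ (Finset.univ : Finset (Fin m))) => hi i
  rw [Finset.sum_add_distrib, Finset.sum_add_distrib] at hsum
  have hcomb := Pool.Agent.L5helper18.PC.combine q a x hxa (T₀ ∪ Pc) hdisj
  have hST : S ⊆ T₀ ∪ Pc :=
    (Finset.subset_union_right.trans (hT1 ⟨0, hm⟩)).trans Finset.subset_union_left
  have hNzNr : ∀ i (v : HeightOneSpectrum (𝓞 L)), (∀ p ∈ T₀ ∪ Pc, (p : 𝓞 L) ∉ v.asIdeal) →
      (∃ l ∈ J i, Pool.Agent.Y557.OE.Nz k (z i l) (φ i : A i →+* L) v) →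
      Pool.Agent.Y729.RV.Nr (T₀ ∪ Pc) (a i) (x i) v := by
    rintro i v hv ⟨l, -, h1, h2⟩
    refine ⟨hv, ?_, j i l, ?_⟩
    · rw [← hx' i]
      exact h1
    · have h3 := h2 0
      have h4 : (φ i : A i →+* L) (z i l 0) = x i - algebraMap k L (a i (j i l)) := by
        rw [hz0 i l, map_sub, ← hx' i]
        show φ i (coord k (A i)) - φ i (algebraMap k (A i) (a i (j i l))) = _
        rw [(φ i).commutes]
      rw [h4] at h3
      exact h3
  have hcc := Pool.Agent.L5helper18.PC.cc_disj hST (fun i (v : HeightOneSpectrum (𝓞 L)) =>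
      ∃ l ∈ J i, Pool.Agent.Y557.OE.Nz k (z i l) (φ i : A i →+* L) v) (by
    intro i
    obtain ⟨h1, -⟩ := hC i L (φ i) (x i) (hx' i) (hxr i) (hxE1 i) (hxa i)
    refine (Set.finite_iUnion fun l => h1 l).subset ?_
    rintro v ⟨l, -, hv⟩
    exact Set.mem_iUnion.mpr ⟨l, hv⟩) (by
    intro i i' hne v hv h1 h2
    exact hdisj i i' hne v (hNzNr i v hv h1) (hNzNr i' v hv h2))
  rw [← hT] at hcc
  have h10 : ∑ i, (finrank ℚ L : ℝ) * (C i + ∑ p ∈ Pc, Real.log (p : ℝ)) =
      finrank ℚ L * (∑ i, C i + m * ∑ p ∈ Pc, Real.log (p : ℝ)) := by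
    rw [← Finset.mul_sum, Finset.sum_add_distrib, Finset.sum_const, Finset.card_univ,
      Fintype.card_fin, nsmul_eq_mul]
  rw [h10] at hsum
  have h11 : ∑ i, (g i - ε) * Height.logHeight₁ (x i) =
      finrank ℚ L * ∑ i, (g i - ε) * h i := by
    rw [Finset.mul_sum]
    refine Finset.sum_congr rfl fun i _ => ?_
    rw [hH i]
    ring
  rw [h11] at hsum
  have h12 : (m : ℝ) * ∑ p ∈ Pc, Real.log (p : ℝ) ≤ ε * (∑ i, h i + 1) := by
    have h13 := mul_le_mul_of_nonneg_left hPcs (Nat.cast_nonneg m : (0 : ℝ) ≤ m)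
    refine h13.trans ?_
    have h14 : (m : ℝ) * (m * (m * (κ' * (finrank ℚ K * ∑ i, h i + 1)))) =
        ε * (∑ i, h i + 1 / finrank ℚ K) := by
      rw [hκ']
      field_simp
    rw [h14]
    have h15 : 1 / (finrank ℚ K : ℝ) ≤ 1 := by
      rw [div_le_one hd0]
      exact hd1
    exact mul_le_mul_of_nonneg_left (by linarith) hε.le
  have h16 : (finrank ℚ L : ℝ) * ∑ i, (g i - ε) * h i ≤ T + Real.log |(discr L : ℝ)| +
      finrank ℚ L * (∑ i, C i + ε * (∑ i, h i + 1)) := by
    have h17 : (finrank ℚ L : ℝ) * (∑ i, C i + m * ∑ p ∈ Pc, Real.log (p : ℝ)) ≤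
        finrank ℚ L * (∑ i, C i + ε * (∑ i, h i + 1)) :=
      mul_le_mul_of_nonneg_left (by linarith) hLpos.le
    linarith
  have h18 : ∑ i, (g i - κ) * h i = ∑ i, (g i - ε) * h i - ε * ∑ i, h i := by
    rw [Finset.mul_sum, ← Finset.sum_sub_distrib]
    refine Finset.sum_congr rfl fun i _ => ?_
    rw [hε']
    ring
  have h19 : ∑ i, (g i - ε) * h i ≤ T / finrank ℚ L + logDisc L +
      (∑ i, C i + ε * (∑ i, h i + 1)) := by
    have h20 : T / finrank ℚ L + logDisc L + (∑ i, C i + ε * (∑ i, h i + 1)) =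
        (T + Real.log |(discr L : ℝ)| + finrank ℚ L * (∑ i, C i + ε * (∑ i, h i + 1))) /
          finrank ℚ L := by
      unfold logDisc
      field_simp
    rw [h20, le_div_iff₀ hLpos, mul_comm]
    exact h16
  rw [h18]
  linarith

end Pool.Agent.Results.MP_a41896_nt.ProductsOfStackyCurves
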