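import Pool.Agent.L5helper92.SS.Ico

/-!
# Vojta's conjecture for the spherical stacky lines is equivalent to the abc conjecture

Let `S` be a finite set of primes and `a, b, c ≥ 1`. If `S` contains all the primes which divide
`a b c`, then the root stack `𝒳 (a, b, c)` of orders `a, b, c` of the projective line over
`ℤ[1 / S]` along the disjoint sections `0, 1, ∞` is a smooth proper Deligne-Mumford stack over
`ℤ[1 / S]`. Its coarse space is `ℙ¹`. Let `D` be the sum of the three stacky points
`(1/a) 0, (1/b) 1, (1/c) ∞`. Since `K = K_{ℙ¹} + (1 - 1/a) 0 + (1 - 1/b) 1 + (1 - 1/c) ∞`, the divisor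
`K (D)` is the pull back of `K_{ℙ¹} + 0 + 1 + ∞`, which has degree `1`. An integral point of
`𝒳 (a, b, c)` outside of `D` is a rational number `x ≠ 0, 1` such that for all primes `q ∉ S` the
intersection multiplicities at `q` of `x` with `0, 1, ∞` are divisible by `a, b, c`. The definitions
(`Pool.Agent.L5helper92.SS`), for a rational number `x = m / n` in lowest terms:

* `ht x = log max (|m|, n)` is `h_{K (D)} (x)` and `h_H (x)` for `H = O(1)`;
* `N1 S x` is the sum of `log q` over the primes `q ∉ S` which divide `m n (n - m)`; this is
  `N^(1) (D, x)`;
* `Pts S a b c` is the set of the integral points outside of `D`;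
* `Vojta S a b c` is Q1 for `K = ℚ`, `S`, this stack and this divisor `D`, for all the big line
  bundles `H = O(m)`, `m ≥ 1`, on `ℙ¹` and all `δ > 0`;
* `ABC` is the abc conjecture.

The condition `1/a + 1/b + 1/c > 1` (written `a b c < a b + b c + c a`) means that the canonical
divisor of the stack `𝒳 (a, b, c)` has negative degree. The triples are, up to the order,
`(1, b, c)`, `(2, 2, n)`, `(2, 3, 3)`, `(2, 3, 4)`, `(2, 3, 5)`. The integral points form a thin set:
for `(2, 3, 5)` they are the numbers `α u ^ 2 / (γ w ^ 5)`, for the solutions of
`α u ^ 2 + β v ^ 3 = γ w ^ 5` in integers `u, v, w` without common prime factor outside of `S` and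
`S`-units `α, β, γ`; by Beukers there are about `X ^ (1/a + 1/b + 1/c - 1)` of them with numerator
and denominator at most `X`.

The proof constructs for every such triple a Belyi function `φ` over `ℚ` with the three rational
cusps `0, 1, ∞` which maps `ℙ¹ (ℚ)` to the integral points of the stack, and uses that abc for the
values of such a function implies abc. For `(2, 3, 5)` the quotient map of the icosahedral group has
only two rational points above `{0, 1, ∞}`; it is composed with the quadratic map
`t ↦ (t ^ 2 - 1) / (2 t)`, which maps `0, 1, ∞` to these two points and is ramified only above `± i`,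
two zeros of the icosahedral form of degree `30`.
-/

set_option autoImplicit false

namespace Pool.Agent.Results.MP_a41896_nt.SphericalStackyCurves

open Pool.Agent.L5helper92.SS

/-- Let `a, b, c ≥ 1` with `1/a + 1/b + 1/c > 1` and let `S` be a finite set of primes which contains
all prime divisors of `a b c`. Vojta's conjecture for the integral points of the stacky line over
`ℤ[1 / S]` with stacky points of orders `a, b, c` at `0, 1, ∞`, and the divisor of the three stacky
points, holds if and only if the abc conjecture holds. -/
theorem result (S : Finset ℕ) (a b c : ℕ) (ha : 1 ≤ a) (hb : 1 ≤ b) (hc : 1 ≤ c)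
    (hsph : a * b * c < a * b + b * c + c * a) (hS : ∀ q : ℕ, q.Prime → q ∣ a * b * c → q ∈ S) :
    Vojta S a b c ↔ ABC :=
  good_abc (good_spherical S a b c ha hb hc hsph hS)

end Pool.Agent.Results.MP_a41896_nt.SphericalStackyCurves
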