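import Pool.Agent.L5helper15.ST.WMain

set_option autoImplicit false

/-!
# Vojta's conjecture for integral points on weighted projective stacks: the size of the error term

`X = ℙ(w_0, …, w_n)` over any number field `K`, the quotient stack of the punctured affine space by the
multiplicative group acting with weights `w_j ≥ 1`; it is a smooth proper Deligne-Mumford stack over the
`S`-integers if the primes dividing the `w_j` are in `S`. The canonical divisor is `O(- ∑ w_j)`. Examples
are the projective spaces and the moduli stack `ℙ(4, 6)` of stable elliptic curves, `y² = x³ + A x + B`.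

Let `D = {F = 0}` be a divisor of degree `d`, so that `h_{K_X + D} = (d - ∑ w_j) h` with `h` the height for
`O(1)`, which contains the `n + 1` coordinate hyperplanes and `l ≥ 1` further components with a common
integral point `z` off the coordinate hyperplanes; for a normal crossings divisor `l ≤ n`, and `l = n` is
possible for all weights. Then in the inequality `N^{(1)}(D, x) ≥ h_{K_X + D}(x) - ε h(x) - C` for the
integral points the term `ε h` cannot be replaced by `c h ^ (l / (l + 1)) / log h` for a small `c > 0`, not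
even outside of a closed substack of degree `exp (c h ^ (l / (l + 1)) / log h)`.

Proof: as for the projective spaces (`ErrorTermExponent`, MP_9ec3f0_nt), with the points
`x_j = z_j s_j ^ w_j`, where the `s_j` are composed of few primes and very close to each other. They are
integral where `z` is if all the primes dividing the `s_j` are large enough.
-/

namespace Pool.Agent.Results.MP_a41896_nt.WeightedProjectiveError

open NumberField IsDedekindDomain

variable {K : Type} [Field K] [NumberField K] {n : ℕ}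

/-- `max_j |x_j|_v ^ (1 / w_j)`. -/
noncomputable def size (v : HeightOneSpectrum (𝓞 K)) (w : Fin (n + 1) → ℕ) (x : Fin (n + 1) → K) : ℝ :=
  ⨆ j, FinitePlace.mk v (x j) ^ (1 / (w j : ℝ))

/-- The point of `ℙ(w)` with weighted homogeneous coordinates `x` is an integral point over the ring of
`S`-integers: for every prime `v` outside `S` there is an `a ≠ 0` such that all the `a ^ (-w_j) x_j` are
`v`-integers, and one of them is a `v`-unit; that is, `max_j |x_j|_v ^ (1 / w_j) = |a|_v`. -/
def IsIntegralPoint (S : Set (HeightOneSpectrum (𝓞 K))) (w : Fin (n + 1) → ℕ) (x : Fin (n + 1) → K) :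
    Prop :=
  x ≠ 0 ∧ ∀ v : HeightOneSpectrum (𝓞 K), v ∉ S → ∃ a : K, a ≠ 0 ∧ size v w x = FinitePlace.mk v a

/-- The local height at the prime `v` of the point with coordinates `x` relative to the divisor `F = 0`,
`F` weighted homogeneous of degree `d`; for an integral point `log N(v)` times the multiplicity at `v` of
the pullback of the closure of this divisor. -/
noncomputable def weil (v : HeightOneSpectrum (𝓞 K)) (F : MvPolynomial (Fin (n + 1)) K) (d : ℕ)
    (w : Fin (n + 1) → ℕ) (x : Fin (n + 1) → K) : ℝ :=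
  Real.log ((⨆ m, FinitePlace.mk v (F.coeff m)) * size v w x ^ d /
    FinitePlace.mk v (MvPolynomial.eval x F))

/-- The truncated counting function `N^{(1)}(D, x)` of the divisor `D = {F = 0}`: the sum of `log N(v)`
over the primes `v` outside `S` at which the point meets `D`. -/
noncomputable def truncated (S : Set (HeightOneSpectrum (𝓞 K)))
    (F : MvPolynomial (Fin (n + 1)) K) (d : ℕ) (w : Fin (n + 1) → ℕ) (x : Fin (n + 1) → K) : ℝ :=
  ∑ᶠ v ∈ {v : HeightOneSpectrum (𝓞 K) | v ∉ S ∧ 0 < weil v F d w x},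
    Real.log (Ideal.absNorm v.asIdeal : ℝ)

/-- The height relative to `K` for `O(1)`, that is `h_{O(W)} / W` for the product `W` of the weights, where
the height for `O(W)` is the one of the point of `ℙ^n` with the coordinates `x_j ^ (W / w_j)`. -/
noncomputable def height (w : Fin (n + 1) → ℕ) (x : Fin (n + 1) → K) : ℝ :=
  Height.logHeight (fun j => x j ^ (∏ i ∈ Finset.univ.erase j, w i)) / ∏ i, (w i : ℝ)

/-- In the truncated Vojta inequality for the divisor `F = 0` of degree `d` of `ℙ(w)` and the points which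
are integral outside `S₀` the error term is at least `c H ^ θ / log H`: for some `c > 0`, all large `H`, all
`S ⊇ S₀` and all weighted homogeneous `G ≠ 0` of degree `δ ≤ exp (c H ^ θ / log H)` over an extension of `K`
there is an integral point `x` over the `S`-integers of height at most `H` off `F = 0` and off `G = 0` with
`N^{(1)}(D, x) ≤ (d - ∑ w_j) h(x) - c H ^ θ / log H`. -/
def ErrorAtLeast (S₀ : Set (HeightOneSpectrum (𝓞 K))) (w : Fin (n + 1) → ℕ)
    (F : MvPolynomial (Fin (n + 1)) K) (d : ℕ) (θ : ℝ) : Prop :=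
  ∃ c : ℝ, 0 < c ∧ ∃ H₀ : ℝ, ∀ H : ℝ, H₀ ≤ H → ∀ S : Set (HeightOneSpectrum (𝓞 K)), S₀ ⊆ S →
    ∀ (Ω : Type) [Field Ω] [Algebra K Ω] (G : MvPolynomial (Fin (n + 1)) Ω) (δ : ℕ),
    G ≠ 0 → G.IsWeightedHomogeneous w δ → (δ : ℝ) ≤ Real.exp (c * (H ^ θ / Real.log H)) →
    ∃ x : Fin (n + 1) → K, IsIntegralPoint S w x ∧ MvPolynomial.eval x F ≠ 0 ∧
      MvPolynomial.eval (fun j => algebraMap K Ω (x j)) G ≠ 0 ∧ height w x ≤ H ∧
      truncated S F d w x ≤ ((d : ℝ) - ∑ j, (w j : ℝ)) * height w x - c * (H ^ θ / Real.log H)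

theorem general {l d : ℕ} (hl : 1 ≤ l) (w : Fin (n + 1) → ℕ) (hw : ∀ j, 1 ≤ w j)
    (F : MvPolynomial (Fin (n + 1)) K) (hF : F ≠ 0) (hFd : F.IsWeightedHomogeneous w d)
    (P : Fin l → MvPolynomial (Fin (n + 1)) K) (e : Fin l → ℕ)
    (hP : ∀ i, (P i).IsWeightedHomogeneous w (e i))
    (hdiv : (∏ j, MvPolynomial.X j) * (∏ i, P i) ∣ F)
    (z : Fin (n + 1) → K) (hz : ∀ i, MvPolynomial.eval z (P i) = 0) (hz0 : ∀ j, z j ≠ 0)
    (S₀ : Set (HeightOneSpectrum (𝓞 K))) (hS₀ : IsIntegralPoint S₀ w z) :
    ErrorAtLeast S₀ w F d ((l : ℝ) / (l + 1)) := by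
  obtain ⟨c, hc, H₀, h⟩ := Pool.Agent.L5helper15.ST.wmain hl w hw F hF hFd P e hP hdiv z hz hz0
  refine ⟨c, hc, H₀, fun H hH S hS Ω _ _ G δ hG hGδ hδ => ?_⟩
  obtain ⟨x, hint, hFx, hGx, hhx, hfin, hsum⟩ := h H hH Ω G δ hG hGδ hδ
  refine ⟨x, ⟨?_, fun v hv => ?_⟩, hFx, hGx, hhx, ?_⟩
  · rintro rfl
    apply hFx
    obtain ⟨E, hE⟩ := hdiv
    rw [hE, map_mul, map_mul, map_prod, Finset.prod_eq_zero (Finset.mem_univ 0), zero_mul, zero_mul]
    rw [MvPolynomial.eval_X]
    rfl
  · rcases hint v with h1 | h1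
    · exact ⟨1, one_ne_zero, by rw [map_one]; exact h1⟩
    · obtain ⟨a, ha, ha1⟩ := hS₀.2 v (fun hv' => hv (hS hv'))
      exact ⟨a, ha, h1.trans ha1⟩
  have hsub : ∀ v : HeightOneSpectrum (𝓞 K), 0 < weil v F d w x →
      Pool.Agent.L5helper15.ST.WBad v F d w x := by
    intro v hv
    by_contra hcon
    unfold Pool.Agent.L5helper15.ST.WBad at hcon
    push Not at hcon
    refine absurd hv (not_lt.2 ?_)
    have h0 : 0 < FinitePlace.mk v (MvPolynomial.eval x F) := FinitePlace.pos_iff.2 hFx
    refine Real.log_nonpos ?_ ?_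
    · refine div_nonneg (mul_nonneg ?_ (pow_nonneg ?_ _)) h0.le
      · exact Real.iSup_nonneg fun j => apply_nonneg _ _
      · exact Real.iSup_nonneg fun j => Real.rpow_nonneg (apply_nonneg _ _) _
    · rw [div_le_one h0]
      exact hcon
  have hfin' : {v : HeightOneSpectrum (𝓞 K) | v ∉ S ∧ 0 < weil v F d w x}.Finite :=
    hfin.subset fun v hv => hsub v hv.2
  have htr : truncated S F d w x = ∑ v ∈ hfin'.toFinset, Pool.Agent.W231.V.ell v := by
    unfold truncated
    rw [finsum_mem_eq_finite_toFinset_sum _ hfin']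
    rfl
  rw [htr]
  exact hsum hfin'.toFinset fun v hv => hsub v (hfin'.mem_toFinset.1 hv).2

/-- points with a coprime pair of coordinates -/
theorem integral_pair (a b : ℤ) (hab : a - b = 1) (w : Fin 2 → ℕ) :
    IsIntegralPoint (∅ : Set (HeightOneSpectrum (𝓞 K))) w ![-(a : K), (b : K)] := by
  refine ⟨fun h => ?_, fun v _ => ⟨1, one_ne_zero, ?_⟩⟩
  · have h0 : -(a : K) = 0 := congrFun h 0
    have h1 : (b : K) = 0 := congrFun h 1
    rw [neg_eq_zero] at h0
    have h2 : a = 0 := by exact_mod_cast h0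
    have h3 : b = 0 := by exact_mod_cast h1
    omega
  · rw [map_one]
    have ha : FinitePlace.mk v (-(a : K)) ≤ 1 := by
      have h1 := Pool.Agent.L5helper15.ST.fv_int v (x := -(a : K)) (by
        exact_mod_cast isIntegral_algebraMap (R := ℤ) (A := K) (x := -a))
      exact h1
    have hb : FinitePlace.mk v (b : K) ≤ 1 := by
      have h1 := Pool.Agent.L5helper15.ST.fv_int v (x := (b : K)) (by
        exact_mod_cast isIntegral_algebraMap (R := ℤ) (A := K) (x := b))
      exact h1
    have hmax : 1 ≤ max (FinitePlace.mk v (-(a : K))) (FinitePlace.mk v (b : K)) := by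
      have h1 := Pool.Agent.W231.V.fv_na v (-(a : K)) (b : K)
      have h2 : -(a : K) + b = -1 := by
        have : ((a - b : ℤ) : K) = 1 := by rw [hab]; simp
        push_cast at this
        linear_combination -this
      rw [h2] at h1
      have h3 : Pool.Agent.W231.V.fv v (-1 : K) = 1 := by
        rw [AbsoluteValue.map_neg, map_one]
      rw [h3] at h1
      exact h1
    apply le_antisymm
    · refine ciSup_le fun j => ?_
      fin_cases j
      · exact Real.rpow_le_one (apply_nonneg _ _) ha (by positivity)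
      · exact Real.rpow_le_one (apply_nonneg _ _) hb (by positivity)
    · rcases le_max_iff.mp hmax with h | h
      · refine le_trans ?_ (Finite.le_ciSup_of_le (f := fun j => FinitePlace.mk v
          ((![-(a : K), (b : K)] : Fin 2 → K) j) ^ (1 / (w j : ℝ))) 0 le_rfl)
        change 1 ≤ FinitePlace.mk v (-(a : K)) ^ (1 / (w 0 : ℝ))
        rw [le_antisymm ha h, Real.one_rpow]
      · refine le_trans ?_ (Finite.le_ciSup_of_le (f := fun j => FinitePlace.mk v
          ((![-(a : K), (b : K)] : Fin 2 → K) j) ^ (1 / (w j : ℝ))) 1 le_rfl)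
        change 1 ≤ FinitePlace.mk v (b : K) ^ (1 / (w 1 : ℝ))
        rw [le_antisymm hb h, Real.one_rpow]

/-- `K` any number field. (1) `D = {F = 0}` any divisor of degree `d` of `ℙ(w_0, …, w_n)` which contains the
coordinate hyperplanes and `l ≥ 1` further hypersurfaces `P_i = 0` with a common point `z` off the coordinate
hyperplanes which is integral outside `S₀`: the error term for the points which are integral outside `S₀` is
at least `c H ^ (l / (l + 1)) / log H`. (2) Special case: the `P_i` are Fermat hypersurfaces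
`∑ a_ij x_j ^ (m / w_j)` with `∑_j a_ij = 0`, and `S₀` is empty. (3) Special case: the divisor
`A B (4 A³ + 27 B²) = 0` of the moduli stack `ℙ(4, 6)` of stable elliptic curves, with exponent `1 / 2`. -/
theorem result (K : Type) [Field K] [NumberField K] :
    (∀ (n l d : ℕ) (w : Fin (n + 1) → ℕ) (F : MvPolynomial (Fin (n + 1)) K), 1 ≤ l → (∀ j, 1 ≤ w j) →
      F ≠ 0 → F.IsWeightedHomogeneous w d →
      (∀ (P : Fin l → MvPolynomial (Fin (n + 1)) K) (e : Fin l → ℕ) (z : Fin (n + 1) → K)
        (S₀ : Set (HeightOneSpectrum (𝓞 K))), (∀ i, (P i).IsWeightedHomogeneous w (e i)) →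
        (∏ j, MvPolynomial.X j) * (∏ i, P i) ∣ F → (∀ i, MvPolynomial.eval z (P i) = 0) →
        (∀ j, z j ≠ 0) → IsIntegralPoint S₀ w z → ErrorAtLeast S₀ w F d ((l : ℝ) / (l + 1))) ∧
      (∀ (m : ℕ) (a : Fin l → Fin (n + 1) → K), (∀ j, w j ∣ m) → (∀ i, ∑ j, a i j = 0) →
        (∏ j, MvPolynomial.X j) *
          (∏ i, ∑ j, MvPolynomial.C (a i j) * MvPolynomial.X j ^ (m / w j)) ∣ F →
        ErrorAtLeast ∅ w F d ((l : ℝ) / (l + 1)))) ∧
    ErrorAtLeast (K := K) (n := 1) ∅ ![4, 6]
      (MvPolynomial.X 0 * MvPolynomial.X 1 *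
        (MvPolynomial.C 4 * MvPolynomial.X 0 ^ 3 + MvPolynomial.C 27 * MvPolynomial.X 1 ^ 2)) 22
      (1 / 2) := by
  classical
  refine ⟨fun n l d w F hl hw hF hFd => ⟨fun P e z S₀ hP hdiv hz hz0 hS₀ =>
    general hl w hw F hF hFd P e hP hdiv z hz hz0 S₀ hS₀, fun m a hm ha hdiv => ?_⟩, ?_⟩
  · refine general hl w hw F hF hFd _ (fun _ => m) (fun i => ?_) hdiv (fun _ => 1) (fun i => ?_)
      (fun _ => one_ne_zero) ∅ ⟨?_, fun v _ => ⟨1, one_ne_zero, ?_⟩⟩
    · refine MvPolynomial.IsWeightedHomogeneous.sum _ _ _ fun j _ => ?_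
      have h1 := (MvPolynomial.isWeightedHomogeneous_X K w j).pow (m / w j)
      rw [smul_eq_mul, Nat.div_mul_cancel (hm j)] at h1
      exact h1.C_mul _
    · rw [map_sum, ← ha i]
      refine Finset.sum_congr rfl fun j _ => ?_
      simp
    · intro h
      exact one_ne_zero (congrFun h 0)
    · unfold size
      simp
  · set P : Fin 1 → MvPolynomial (Fin (1 + 1)) K := fun _ =>
      MvPolynomial.C 4 * MvPolynomial.X 0 ^ 3 + MvPolynomial.C 27 * MvPolynomial.X 1 ^ 2 with hP
    have hPh : ∀ i, (P i).IsWeightedHomogeneous (![4, 6] : Fin 2 → ℕ) 12 := by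
      intro i
      refine MvPolynomial.IsWeightedHomogeneous.add ?_ ?_
      · have h1 := ((MvPolynomial.isWeightedHomogeneous_X K (![4, 6] : Fin 2 → ℕ) 0).pow 3).C_mul (4 : K)
        exact h1
      · have h1 := ((MvPolynomial.isWeightedHomogeneous_X K (![4, 6] : Fin 2 → ℕ) 1).pow 2).C_mul (27 : K)
        exact h1
    have hP0 : P 0 ≠ 0 := by
      intro h0
      have h1 := congrArg (MvPolynomial.eval (![1, 0] : Fin 2 → K)) h0
      rw [hP] at h1
      simp at h1
    have hres := general (K := K) (n := 1) (l := 1) (d := 22) le_rfl ![4, 6] (by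
        intro j
        fin_cases j <;> simp)
      (MvPolynomial.X 0 * MvPolynomial.X 1 * P 0) (by
        refine mul_ne_zero (mul_ne_zero (MvPolynomial.X_ne_zero _) (MvPolynomial.X_ne_zero _)) hP0) (by
        have h1 := ((MvPolynomial.isWeightedHomogeneous_X K (![4, 6] : Fin 2 → ℕ) 0).mul
          (MvPolynomial.isWeightedHomogeneous_X K (![4, 6] : Fin 2 → ℕ) 1)).mul (hPh 0)
        exact h1) P (fun _ => 12) hPh (by
        rw [Fin.prod_univ_two]
        simp) ![-((3 : ℤ) : K), ((2 : ℤ) : K)] (by
        intro i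
        rw [hP]
        simp only [map_add, map_mul, map_pow, MvPolynomial.eval_C, MvPolynomial.eval_X,
          Matrix.cons_val_zero, Matrix.cons_val_one]
        push_cast
        norm_num) (by
        intro j
        fin_cases j
        · change -((3 : ℤ) : K) ≠ 0
          push_cast
          norm_num
        · change ((2 : ℤ) : K) ≠ 0
          push_cast
          norm_num) ∅ (integral_pair 3 2 (by norm_num) _)
    have h12 : ((1 : ℕ) : ℝ) / (((1 : ℕ) : ℝ) + 1) = 1 / 2 := by norm_num
    rw [h12] at hres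
    exact hres

end Pool.Agent.Results.MP_a41896_nt.WeightedProjectiveError
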